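import Pool.Agent.U642.DT.Core

set_option autoImplicit false
set_option linter.unusedVariables false

/-! # The rigid part for two arbitrary sets, choice of the classes (helper642) -/

namespace Pool.Agent.U642.DT

open Finset Filter Pool.Agent.H256R2.SC Pool.Agent.U642.DS

open scoped Classical

theorem popT (A : Finset ℕ) (N P₀ P₁ ρ : ℕ) (hcop : Nat.Coprime P₀ P₁) (h0 : 0 < P₀) (h1 : 0 < P₁)
    (hA : A ⊆ Icc 1 N) (hqN : P₀ * P₁ ≤ N) (D : ℝ) (hD : 0 < D)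
    (h : (N : ℝ) / (P₀ * D) ≤ ((A.filter (fun a => a % P₀ = ρ)).card : ℝ)) :
    (P₁ : ℝ) ≤ 4 * D * ((range P₁).filter (fun s => (N : ℝ) / (2 * (P₀ * P₁) * D) ≤
      ((A.filter (fun a => a % (P₀ * P₁) = rc hcop ρ s)).card : ℝ))).card := by
  have h0R : (0 : ℝ) < P₀ := by exact_mod_cast h0
  have h1R : (0 : ℝ) < P₁ := by exact_mod_cast h1
  have hN : (0 : ℝ) < N := by exact_mod_cast lt_of_lt_of_le (Nat.mul_pos h0 h1) hqN
  have hBd : ∀ s ∈ range P₁,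
      ((A.filter (fun a => a % (P₀ * P₁) = rc hcop ρ s)).card : ℝ) ≤ 2 * (N / (P₀ * P₁)) := by
    intro s _
    have e1 := card_class A N (P₀ * P₁) (rc hcop ρ s) hA
    have e2 : ((A.filter (fun a => a % (P₀ * P₁) = rc hcop ρ s)).card : ℝ) ≤
        ((N / (P₀ * P₁) : ℕ) : ℝ) + 1 := by exact_mod_cast e1
    have e3 : ((N / (P₀ * P₁) : ℕ) : ℝ) ≤ (N : ℝ) / ((P₀ * P₁ : ℕ) : ℝ) := Nat.cast_div_le
    rw [Nat.cast_mul] at e3
    have e4 : (1 : ℝ) ≤ (N : ℝ) / (P₀ * P₁) := by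
      rw [le_div_iff₀ (by positivity), one_mul]
      exact_mod_cast hqN
    linarith
  set τ : ℝ := (N : ℝ) / (2 * (P₀ * P₁) * D) with hτ
  have hτ0 : 0 ≤ τ := by positivity
  have hpop := popular A P₀ P₁ ρ hcop h0 h1 (range P₁)
    (fun a _ => mem_range.mpr (Nat.mod_lt _ h1)) (2 * (N / (P₀ * P₁))) τ hBd
  rw [max_eq_left hτ0, card_range] at hpop
  set T : ℝ := (((range P₁).filter
    (fun s => τ ≤ ((A.filter (fun a => a % (P₀ * P₁) = rc hcop ρ s)).card : ℝ))).card : ℝ) with hT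
  have h2 := h.trans hpop
  have h3 : (P₁ : ℝ) * τ = (N / (P₀ * D)) / 2 := by
    rw [hτ]
    field_simp
  rw [h3] at h2
  have h4 : (N : ℝ) / (P₀ * D) / 2 ≤ T * (2 * (N / (P₀ * P₁))) := by linarith
  have h5 : (P₁ : ℝ) = ((N : ℝ) / (P₀ * D) / 2) * (2 * P₀ * P₁ * D / N) := by
    field_simp
  have h6 : 4 * D * T = (T * (2 * (N / (P₀ * P₁)))) * (2 * P₀ * P₁ * D / N) := by
    field_simp
    ring
  rw [h5, h6]
  exact mul_le_mul_of_nonneg_right h4 (by positivity)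

theorem ev_core (c₀ : ℝ) (hc₀ : 0 < c₀) (J K : ℕ) : ∃ X₀ : ℝ, ∀ X : ℝ, X₀ ≤ X →
    1 < X ∧ 2 ≤ Real.log X ∧ 1 ≤ Real.log (Real.log X / 10) ∧
    (Real.log (Real.log X / 10)) ^ 8 ≤ Real.log X / 10 ∧
    (J : ℝ) + 2 ≤ (Real.log (Real.log X / 10)) ^ 8 ∧
    Real.log X / 10 * (Real.log (Real.log X / 10)) ^ 2 ≤ (Real.log X) ^ 2 ∧
    4 * J * (Real.log X / 10 * (Real.log (Real.log X / 10)) ^ 2) *
      ((2 * Real.log (4 * (Real.log X) ^ K) + 4) / (Real.log (Real.log X / 10)) ^ 4) ≤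
        c₀ / 2 * Real.log X := by
  have t1 : Tendsto (fun X : ℝ => Real.log X / 10) atTop atTop :=
    Real.tendsto_log_atTop.atTop_div_const (by norm_num)
  have t2 : Tendsto (fun X : ℝ => Real.log (Real.log X / 10)) atTop atTop :=
    Real.tendsto_log_atTop.comp t1
  have h1 : ∀ᶠ y : ℝ in atTop, (Real.log y) ^ 8 ≤ y := by
    have e := (Real.isLittleO_pow_log_id_atTop (n := 8)).bound one_pos
    filter_upwards [e, eventually_ge_atTop (1 : ℝ)] with y hy hy1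
    rw [Real.norm_of_nonneg (pow_nonneg (Real.log_nonneg hy1) _), one_mul, id,
      Real.norm_of_nonneg (by linarith)] at hy
    exact hy
  have key : ∀ᶠ X : ℝ in atTop, 1 < X ∧ 2 ≤ Real.log X ∧ 1 ≤ Real.log (Real.log X / 10) ∧
      (Real.log (Real.log X / 10)) ^ 8 ≤ Real.log X / 10 ∧
      (J : ℝ) + 2 ≤ (Real.log (Real.log X / 10)) ^ 8 ∧
      Real.log X / 10 * (Real.log (Real.log X / 10)) ^ 2 ≤ (Real.log X) ^ 2 ∧
      4 * J * (Real.log X / 10 * (Real.log (Real.log X / 10)) ^ 2) *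
        ((2 * Real.log (4 * (Real.log X) ^ K) + 4) / (Real.log (Real.log X / 10)) ^ 4) ≤
          c₀ / 2 * Real.log X := by
    filter_upwards [eventually_gt_atTop (1 : ℝ), Real.tendsto_log_atTop.eventually_ge_atTop 20,
      t1.eventually h1, t2.eventually_ge_atTop 3, t2.eventually_ge_atTop ((J : ℝ) + 2),
      t2.eventually_ge_atTop ((8 * J / 10) * (8 + 4 * K) / c₀)] with X e1 e2 e3 e4 e5 e6
    set l := Real.log X with hl
    set t := Real.log (l / 10) with ht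
    have hl0 : 0 < l := by linarith
    have ht0 : 0 < t := by linarith
    have hlog10 : Real.log 10 ≤ 3 := by
      have : (10 : ℝ) ≤ Real.exp 3 := by
        have e := Real.exp_one_gt_d9
        have : Real.exp 3 = Real.exp 1 ^ 3 := by rw [← Real.exp_nat_mul]; norm_num
        rw [this]
        have h27 : (2.7 : ℝ) ^ 3 ≤ Real.exp 1 ^ 3 := pow_le_pow_left₀ (by norm_num) (by linarith) 3
        norm_num at h27
        linarith
      rw [← Real.log_exp 3]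
      exact Real.log_le_log (by norm_num) this
    have hll : Real.log l ≤ 2 * t := by
      have : Real.log (l / 10) = Real.log l - Real.log 10 := Real.log_div hl0.ne' (by norm_num)
      rw [← ht] at this
      linarith
    have ht8 : t ^ 2 ≤ t ^ 8 := pow_le_pow_right₀ (by linarith) (by norm_num)
    have ht1 : t ≤ t ^ 8 := by
      calc t = t ^ 1 := (pow_one t).symm
        _ ≤ t ^ 8 := pow_le_pow_right₀ (by linarith) (by norm_num)
    refine ⟨e1, by linarith, by linarith, e3, by linarith, ?_, ?_⟩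
    · have h2 : t ^ 2 ≤ l := by linarith
      calc l / 10 * t ^ 2 ≤ l * l := mul_le_mul (by linarith) h2 (by positivity) hl0.le
        _ = l ^ 2 := by ring
    · have h2 : Real.log (4 * l ^ K) ≤ 2 + 2 * K * t := by
        rw [Real.log_mul (by norm_num) (by positivity), Real.log_pow]
        have h3 : Real.log 4 ≤ 2 := by
          have : Real.log 4 = 2 * Real.log 2 := by
            rw [show (4 : ℝ) = 2 ^ 2 by norm_num, Real.log_pow]; norm_num
          have := Real.log_two_lt_d9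
          linarith
        have h4 : (K : ℝ) * Real.log l ≤ K * (2 * t) :=
          mul_le_mul_of_nonneg_left hll (Nat.cast_nonneg K)
        linarith
      have h3 : 2 * Real.log (4 * l ^ K) + 4 ≤ (8 + 4 * K) * t := by
        have : (8 : ℝ) ≤ 8 * t := by linarith
        linarith
      have h5 : (8 * J / 10) * (8 + 4 * K) ≤ c₀ * t := by
        rw [div_le_iff₀ hc₀] at e6
        linarith
      have h4 : 4 * J * (l / 10 * t ^ 2) * ((2 * Real.log (4 * l ^ K) + 4) / t ^ 4) ≤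
          4 * J * (l / 10 * t ^ 2) * (((8 + 4 * K) * t) / t ^ 4) := by
        apply mul_le_mul_of_nonneg_left _ (by positivity)
        exact div_le_div_of_nonneg_right h3 (by positivity)
      refine h4.trans ?_
      have h6 : 4 * J * (l / 10 * t ^ 2) * (((8 + 4 * K) * t) / t ^ 4) =
          ((8 * J / 10) * (8 + 4 * K)) * (l / (2 * t)) := by
        field_simp
        ring
      rw [h6]
      calc ((8 * J / 10) * (8 + 4 * K)) * (l / (2 * t)) ≤ (c₀ * t) * (l / (2 * t)) :=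
            mul_le_mul_of_nonneg_right h5 (by positivity)
        _ = c₀ / 2 * l := by field_simp
  obtain ⟨X₀, hX₀⟩ := eventually_atTop.1 key
  exact ⟨X₀, hX₀⟩

/-- sum of the squares of the reciprocals -/
theorem sq_sum {y u : ℝ} (hy : 0 ≤ y) (hu : 1 ≤ u) :
    ∑ p ∈ Q1 y u, (1 / (p : ℝ)) ^ 2 ≤ 2 / u := by
  set k : ℕ := ⌊u⌋₊ with hk
  have hk1 : 1 ≤ k := by rw [hk]; exact Nat.le_floor (by simpa using hu)
  have hku : (k : ℝ) ≤ u := Nat.floor_le (by linarith)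
  have hku' : u < k + 1 := Nat.lt_floor_add_one u
  have hsub : Q1 y u ⊆ Ioc k (max k ⌊y⌋₊) := by
    intro p hp
    rw [mem_Q1 hy] at hp
    rw [mem_Ioc]
    constructor
    · have : (k : ℝ) < p := by linarith [hp.2.2]
      exact_mod_cast this
    · exact (Nat.le_floor hp.2.1).trans (le_max_right _ _)
  have h1 : ∑ p ∈ Q1 y u, (1 / (p : ℝ)) ^ 2 ≤ ∑ p ∈ Ioc k (max k ⌊y⌋₊), (1 / (p : ℝ)) ^ 2 :=
    sum_le_sum_of_subset_of_nonneg hsub fun _ _ _ => by positivity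
  have h2 := sum_Ioc_inv_sq_le_sub (α := ℝ) (k := k) (n := max k ⌊y⌋₊) (by omega) (le_max_left _ _)
  have h3 : ∑ p ∈ Ioc k (max k ⌊y⌋₊), (1 / (p : ℝ)) ^ 2 = ∑ i ∈ Ioc k (max k ⌊y⌋₊), ((i : ℝ) ^ 2)⁻¹ := by
    apply sum_congr rfl
    intro i _
    rw [one_div, inv_pow]
  rw [h3] at h1
  have h4 : (0 : ℝ) ≤ ((max k ⌊y⌋₊ : ℕ) : ℝ)⁻¹ := by positivity
  have hk0 : (0 : ℝ) < k := by exact_mod_cast hk1
  have h5 : ((k : ℝ))⁻¹ ≤ 2 / u := by
    rw [inv_eq_one_div, div_le_div_iff₀ hk0 (by linarith)]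
    have : (1 : ℝ) ≤ k := by exact_mod_cast hk1
    linarith
  linarith

theorem core (J K : ℕ) (hJ : 1 ≤ J) : ∃ c : ℝ, 0 < c ∧ ∃ N₀ : ℕ, ∀ N : ℕ, N₀ ≤ N →
    ∀ y u : ℝ, y = Real.log N / 10 → u = (Real.log y) ^ 8 →
    ∀ L : ℕ, y ≤ L → (L : ℝ) ≤ y * (Real.log y) ^ 2 →
    ∀ S : Finset ℕ, (∀ p ∈ S, p.Prime ∧ u < (p : ℝ) ∧ (p : ℝ) ≤ y) →
    ∀ (A B : Finset ℕ), A ⊆ Icc 1 N → B ⊆ Icc 1 N → ∀ v : ℤ,
    (∀ a ∈ A, ∀ b ∈ B, (N : ℝ) ^ (1 / 200 : ℝ) ≤ |(a : ℝ) + b + v|) →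
    ∀ (P₀ : ℕ), P₀ = ∏ p ∈ Q0 y u, p → ∀ ρ σ : ℕ,
    (N : ℝ) / (P₀ * (Real.log N) ^ K) ≤ ((A.filter (fun a => a % P₀ = ρ)).card : ℝ) →
    (N : ℝ) / (P₀ * (Real.log N) ^ K) ≤ ((B.filter (fun a => a % P₀ = σ)).card : ℝ) →
    ((HH y u S J L ((ρ : ℤ) + σ + v)).card : ℝ) * ∏ p ∈ S, (1 - 1 / (p : ℝ)) ≤ c * Real.log N →
    ∃ a ∈ A, ∃ b ∈ B, ∀ j ∈ Icc 1 J, ∀ p : ℕ, p.Prime →
      (L : ℝ) < abs ((p : ℝ) - j * |(a : ℝ) + b + v|) := by
  obtain ⟨c₀, hc₀, N₁, hsoft⟩ := softS J (K + 1) hJ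
  obtain ⟨X₁, hev⟩ := ev_core c₀ hc₀ J K
  refine ⟨c₀ / 2, by positivity, max N₁ ⌈X₁⌉₊, ?_⟩
  intro N hN y u hy hu L hyL hLy S hS A B hA hB v hv P₀ hP₀ ρ σ hAρ hBσ hH
  have hN1 : N₁ ≤ N := (le_max_left _ _).trans hN
  have hNX : X₁ ≤ (N : ℝ) := (Nat.le_ceil _).trans (by exact_mod_cast (le_max_right _ _).trans hN)
  obtain ⟨e1, e2, e3, e4, e5, e6, e7⟩ := hev (N : ℝ) hNX
  rw [← hy] at e3 e4 e5 e6 e7
  rw [← hu] at e4 e5
  set X : ℝ := (N : ℝ) with hX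
  set l : ℝ := Real.log X with hl
  have hX0 : 0 < X := by linarith
  have hl0 : 0 < l := by linarith
  have hy0 : 0 ≤ y := by rw [hy]; positivity
  set t : ℝ := Real.log y with ht
  have hu1 : 1 ≤ u := by rw [hu]; exact one_le_pow₀ e3
  set P₁ : ℕ := ∏ p ∈ Q1 y u, p with hP₁
  have hQ0p : ∀ p ∈ Q0 y u, p.Prime := fun p hp => ((mem_Q0 hy0).mp hp).1
  have hQ1p : ∀ p ∈ Q1 y u, p.Prime := fun p hp => ((mem_Q1 hy0).mp hp).1
  have h0 : 0 < P₀ := by rw [hP₀]; exact prod_pos fun p hp => (hQ0p p hp).pos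
  have h1 : 0 < P₁ := prod_pos fun p hp => (hQ1p p hp).pos
  have h0R : (0 : ℝ) < P₀ := by exact_mod_cast h0
  have h1R : (0 : ℝ) < P₁ := by exact_mod_cast h1
  have hcop : Nat.Coprime P₀ P₁ := by rw [hP₀]; exact Q_cop hy0
  have hq : P₀ * P₁ = primorial ⌊l / 10⌋₊ := by rw [hP₀, ← hy]; exact Q_mul y u
  have hqX : ((P₀ * P₁ : ℕ) : ℝ) ≤ X := by
    rw [hq]
    refine (primorial_le_rpow e1.le).trans ?_
    calc X ^ (3 / 20 : ℝ) ≤ X ^ (1 : ℝ) :=
          Real.rpow_le_rpow_of_exponent_le e1.le (by norm_num)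
      _ = X := Real.rpow_one X
  have hqN : P₀ * P₁ ≤ N := by
    rw [hX] at hqX
    exact Nat.cast_le.mp hqX
  set D : ℝ := l ^ K with hD
  have hD0 : 0 < D := by positivity
  have hTA := popT A N P₀ P₁ ρ hcop h0 h1 hA hqN D hD0 hAρ
  have hTB := popT B N P₀ P₁ σ hcop h0 h1 hB hqN D hD0 hBσ
  set TA : Finset ℕ := (range P₁).filter (fun s => (N : ℝ) / (2 * (P₀ * P₁) * D) ≤
      ((A.filter (fun a => a % (P₀ * P₁) = rc hcop ρ s)).card : ℝ)) with hTAd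
  set TB : Finset ℕ := (range P₁).filter (fun s => (N : ℝ) / (2 * (P₀ * P₁) * D) ≤
      ((B.filter (fun a => a % (P₀ * P₁) = rc hcop σ s)).card : ℝ)) with hTBd
  have hne : ∀ T : Finset ℕ, (P₁ : ℝ) ≤ 4 * D * T.card → T.Nonempty := by
    intro T hT
    rw [← card_pos]
    by_contra hcon
    have : T.card = 0 := by omega
    rw [this, Nat.cast_zero, mul_zero] at hT
    linarith
  have hlogT : ∀ T : Finset ℕ, (P₁ : ℝ) ≤ 4 * D * T.card →
      Real.log ((P₁ : ℝ) / T.card) ≤ Real.log (4 * D) := by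
    intro T hT
    have hT0 : (0 : ℝ) < T.card := by exact_mod_cast card_pos.mpr (hne T hT)
    apply Real.log_le_log (by positivity)
    rw [div_le_iff₀ hT0]
    exact hT
  -- the target
  set s₀ : ℤ := (ρ : ℤ) + σ + v with hs₀
  obtain ⟨mS, hmS⟩ := target S (fun p hp => (hS p hp).1) (HH y u S J L s₀) (by
    intro k hk p hp hd
    unfold HH at hk
    rw [mem_filter, mem_product, mem_Icc] at hk
    have h3 := Nat.le_of_dvd (by omega) hd
    have h4 : (p : ℝ) ≤ J := by exact_mod_cast h3.trans hk.1.1.2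
    have h5 := (hS p hp).2.1
    linarith)
  obtain ⟨τ, hτS, hτM⟩ := crt_target S (Q1 y u \ S) (fun p hp => (hS p hp).1)
    (fun p hp => hQ1p p (mem_sdiff.mp hp).1) disjoint_sdiff mS
  -- the reflected set
  have hP1Z : (0 : ℤ) < P₁ := by exact_mod_cast h1
  set φ : ℕ → ℕ := fun s => ((τ - v - s) % (P₁ : ℤ)).toNat with hφ
  have hφv : ∀ s : ℕ, ((φ s : ℕ) : ℤ) = (τ - v - s) % (P₁ : ℤ) := fun s =>
    Int.toNat_of_nonneg (Int.emod_nonneg _ hP1Z.ne')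
  have hφd : ∀ s : ℕ, (P₁ : ℤ) ∣ (τ - v - s) - (φ s : ℕ) := by
    intro s
    rw [hφv]
    exact Int.dvd_self_sub_emod
  have hφlt : ∀ s : ℕ, φ s ∈ range P₁ := by
    intro s
    rw [mem_range]
    have : ((φ s : ℕ) : ℤ) < P₁ := by
      rw [hφv]
      exact Int.emod_lt_of_pos _ hP1Z
    exact_mod_cast this
  have hφc : (TB.image φ).card = TB.card := by
    apply card_image_of_injOn
    intro s hs s' hs' hss
    rw [mem_coe, hTBd, mem_filter, mem_range] at hs hs'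
    have h3 := dvd_sub (hφd s) (hφd s')
    rw [hss] at h3
    have h4 : (τ - v - s) - ((φ s' : ℕ) : ℤ) - ((τ - v - s') - ((φ s' : ℕ) : ℤ)) = (s' : ℤ) - s := by
      ring
    rw [h4] at h3
    have h5 : (s' : ℤ) - s = 0 := by
      apply Int.eq_zero_of_abs_lt_dvd h3
      rw [abs_lt]
      constructor <;> omega
    omega
  have hTB' : (P₁ : ℝ) ≤ 4 * D * (TB.image φ).card := by rw [hφc]; exact hTB
  have hlam : 0 < t ^ 4 := by positivity
  obtain ⟨s, hs, s'', hs'', hdd⟩ := conc_pair (t ^ 4) hlam (fun q => 1 / (q : ℝ))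
    (fun q => by positivity) (Q1 y u) hQ1p
    (by
      intro q hq
      have h3 := ((mem_Q1 hy0).mp hq).2.2
      have h4 : t ^ 4 ≤ u := by
        rw [hu]
        exact pow_le_pow_right₀ e3 (by norm_num)
      have h5 : (0 : ℝ) < q := by linarith
      rw [mul_one_div, div_le_one h5]
      linarith) TA (TB.image φ) (filter_subset _ _) (hne _ hTA)
    (by
      intro x hx
      obtain ⟨b, _, rfl⟩ := mem_image.mp hx
      exact hφlt b) (hne _ hTB')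
  obtain ⟨s', hs', rfl⟩ := mem_image.mp hs''
  -- bound of the distance
  have hdd2 : dd (Q1 y u) (fun q => 1 / (q : ℝ)) s (φ s') ≤
      (2 * Real.log (4 * D) + 4) / t ^ 4 := by
    refine hdd.trans ?_
    have h3 := div_le_div_of_nonneg_right (hlogT TA hTA) hlam.le
    have h4 := div_le_div_of_nonneg_right (hlogT (TB.image φ) hTB') hlam.le
    have h5 := sq_sum (y := y) hy0 hu1
    have h6 : 2 * (t ^ 4 * ∑ q ∈ Q1 y u, (1 / (q : ℝ)) ^ 2) ≤ 4 / t ^ 4 := by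
      have h7 : t ^ 4 * ∑ q ∈ Q1 y u, (1 / (q : ℝ)) ^ 2 ≤ t ^ 4 * (2 / u) :=
        mul_le_mul_of_nonneg_left h5 hlam.le
      have h8 : t ^ 4 * (2 / u) = 2 / t ^ 4 := by
        rw [hu]
        field_simp
      have h9 : 2 * (2 / t ^ 4) = 4 / t ^ 4 := by ring
      linarith
    have h7 : (2 * Real.log (4 * D) + 4) / t ^ 4 = Real.log (4 * D) / t ^ 4 +
        Real.log (4 * D) / t ^ 4 + 4 / t ^ 4 := by ring
    rw [h7]
    exact add_le_add (add_le_add h3 h4) h6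
  -- the classes
  set r : ℕ := rc hcop ρ s with hr
  set r' : ℕ := rc hcop σ s' with hr'
  obtain ⟨a1, a2, _⟩ := rc_spec hcop h0 h1 ρ s
  obtain ⟨b1, b2, _⟩ := rc_spec hcop h0 h1 σ s'
  have a1' : (P₀ : ℤ) ∣ (r : ℤ) - ρ := (Nat.modEq_iff_dvd).mp a1.symm
  have a2' : (P₁ : ℤ) ∣ (r : ℤ) - s := (Nat.modEq_iff_dvd).mp a2.symm
  have b1' : (P₀ : ℤ) ∣ (r' : ℤ) - σ := (Nat.modEq_iff_dvd).mp b1.symm
  have b2' : (P₁ : ℤ) ∣ (r' : ℤ) - s' := (Nat.modEq_iff_dvd).mp b2.symm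
  set m : ℤ := (r : ℤ) + r' + v with hm
  have hm0 : ∀ p ∈ Q0 y u, (p : ℤ) ∣ m - s₀ := by
    intro p hp
    have h3 : (p : ℤ) ∣ (P₀ : ℤ) := by
      have : p ∣ P₀ := by rw [hP₀]; exact dvd_prod_of_mem (fun p => p) hp
      exact_mod_cast this
    have h4 : m - s₀ = ((r : ℤ) - ρ) + ((r' : ℤ) - σ) := by rw [hm, hs₀]; ring
    rw [h4]
    exact h3.trans (dvd_add a1' b1')
  have hE : ∑ p ∈ (Q1 y u).filter (fun p : ℕ => ¬ (p : ℤ) ∣ m - τ), 1 / (p : ℝ) ≤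
      dd (Q1 y u) (fun q => 1 / (q : ℝ)) s (φ s') := by
    unfold dd
    apply sum_le_sum_of_subset_of_nonneg
    · intro p hp
      rw [mem_filter] at hp ⊢
      refine ⟨hp.1, fun hmod => hp.2 ?_⟩
      have h3 : (p : ℤ) ∣ (P₁ : ℤ) := by
        have : p ∣ P₁ := dvd_prod_of_mem (fun p => p) hp.1
        exact_mod_cast this
      have h4 : (p : ℤ) ∣ ((φ s' : ℕ) : ℤ) - s := (Nat.modEq_iff_dvd).mp hmod
      have h5 : m - τ = ((r : ℤ) - s) + ((r' : ℤ) - s') - ((τ - v - s') - ((φ s' : ℕ) : ℤ)) -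
          (((φ s' : ℕ) : ℤ) - s) := by rw [hm]; ring
      rw [h5]
      exact dvd_sub (dvd_sub (h3.trans (dvd_add a2' b2')) (h3.trans (hφd s'))) h4
    · intro p _ _
      positivity
  have hcount := UA_count hy0 e4 S hS J L hyL s₀ mS τ m hτS hτM hm0
  have hUA : ((UA (l / 10) J L ((r : ℤ) + r' + v)).card : ℝ) ≤ c₀ * l := by
    rw [← hy, ← hm]
    refine hcount.trans ?_
    have h3 : 4 * (J : ℝ) * L * ∑ p ∈ (Q1 y u).filter (fun p : ℕ => ¬ (p : ℤ) ∣ m - τ), 1 / (p : ℝ) ≤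
        4 * J * (y * t ^ 2) * ((2 * Real.log (4 * D) + 4) / t ^ 4) := by
      apply mul_le_mul _ (hE.trans hdd2) (sum_nonneg fun _ _ => by positivity) (by positivity)
      apply mul_le_mul_of_nonneg_left hLy (by positivity)
    have h4 : ((UU S (HH y u S J L s₀) mS).card : ℝ) ≤ c₀ / 2 * l := hmS.trans hH
    linarith
  have hdens : ∀ x : ℝ, (N : ℝ) / (2 * (P₀ * P₁) * D) ≤ x →
      (N : ℝ) / ((P₀ * P₁ : ℕ) * (Real.log N) ^ (K + 1)) ≤ x := by
    intro x hx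
    refine le_trans ?_ hx
    apply div_le_div_of_nonneg_left hX0.le (by positivity)
    rw [Nat.cast_mul, pow_succ]
    have : 2 * ((P₀ : ℝ) * P₁) * D = (P₀ * P₁) * (D * 2) := by ring
    rw [this]
    apply mul_le_mul_of_nonneg_left _ (by positivity)
    exact mul_le_mul_of_nonneg_left e2 hD0.le
  rw [hTAd, mem_filter] at hs
  rw [hTBd, mem_filter] at hs'
  have hl1 : (1 : ℝ) ≤ y := by
    have : 1 ≤ u := hu1
    linarith
  exact hsoft N hN1 L (by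
      have : (1 : ℝ) ≤ L := hl1.trans hyL
      exact_mod_cast this) (hLy.trans e6) A B hA hB v hv (P₀ * P₁) hq r r'
    (hdens _ hs.2) (hdens _ hs'.2) hUA

end Pool.Agent.U642.DT
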