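import Pool.Agent.U642.DT.Core2
import Pool.Agent.U642.DT.Surv8
import Pool.Agent.U642.DS.FinA

set_option autoImplicit false
set_option linter.unusedVariables false

/-! # Record gaps at the sums of two arbitrary dense sets (helper642) -/

namespace Pool.Agent.U642.DT

open Finset Filter Pool.Agent.H256R2.SC Pool.Agent.U642.DS

open scoped Classical

theorem HH_card (y : ℝ) (S : Finset ℕ) (J L : ℕ) (s₀ : ℤ) (B : ℝ)
    (hB : ∀ e : ℤ, ((RE y S L e).card : ℝ) ≤ B) :
    ((HH y ((Real.log y) ^ 8) S J L s₀).card : ℝ) ≤ J * (1 + 2 * B) := by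
  have h1 : HH y ((Real.log y) ^ 8) S J L s₀ ⊆ (Icc 1 J).biUnion (fun j =>
      (({0} : Finset ℤ) ∪ ((RE y S L (j * s₀)).image (fun n : ℕ => (n : ℤ)) ∪
        (RE y S L (-(j * s₀))).image (fun n : ℕ => -(n : ℤ)))).image (fun h => (j, h))) := by
    rintro ⟨j, h⟩ hk
    unfold HH at hk
    rw [mem_filter, mem_product, mem_Icc, mem_Icc] at hk
    obtain ⟨⟨⟨a1, a2⟩, a3, a4⟩, a5, a6⟩ := hk
    simp only at a1 a2 a3 a4 a5 a6
    rw [mem_biUnion]
    refine ⟨j, mem_Icc.mpr ⟨a1, a2⟩, ?_⟩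
    rw [mem_image]
    refine ⟨h, ?_, rfl⟩
    rw [mem_union, mem_union, mem_image, mem_image, mem_singleton]
    rcases lt_trichotomy h 0 with h0 | h0 | h0
    · right
      right
      refine ⟨h.natAbs, ?_, by omega⟩
      unfold RE
      rw [mem_filter, mem_Icc]
      have hh : ((h.natAbs : ℕ) : ℤ) = -h := by omega
      refine ⟨⟨by omega, by omega⟩, ?_, ?_⟩
      · intro p hp hup hpy hpS hd
        exact a5 p hp hup hpy hpS (Int.natCast_dvd.mpr hd)
      · intro p hp hpu hd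
        apply a6 p hp hpu
        rw [hh] at hd
        have : -((j : ℤ) * s₀) + -h = -((j : ℤ) * s₀ + h) := by ring
        rw [this] at hd
        exact (dvd_neg).mp hd
    · left
      exact h0
    · right
      left
      refine ⟨h.natAbs, ?_, by omega⟩
      unfold RE
      rw [mem_filter, mem_Icc]
      have hh : ((h.natAbs : ℕ) : ℤ) = h := by omega
      refine ⟨⟨by omega, by omega⟩, ?_, ?_⟩
      · intro p hp hup hpy hpS hd
        exact a5 p hp hup hpy hpS (Int.natCast_dvd.mpr hd)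
      · intro p hp hpu hd
        apply a6 p hp hpu
        rw [hh] at hd
        exact hd
  have h2 := (Nat.cast_le (α := ℝ)).mpr ((card_le_card h1).trans card_biUnion_le)
  refine h2.trans ?_
  push_cast
  have h3 : ∀ j ∈ Icc 1 J, (((({0} : Finset ℤ) ∪ ((RE y S L (j * s₀)).image (fun n : ℕ => (n : ℤ)) ∪
        (RE y S L (-(j * s₀))).image (fun n : ℕ => -(n : ℤ)))).image (fun h => (j, h))).card : ℝ) ≤
        1 + 2 * B := by
    intro j _
    have e1 := card_image_le (s := ({0} : Finset ℤ) ∪ ((RE y S L (j * s₀)).image (fun n : ℕ => (n : ℤ)) ∪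
        (RE y S L (-(j * s₀))).image (fun n : ℕ => -(n : ℤ)))) (f := fun h : ℤ => (j, h))
    have e2 := card_union_le ({0} : Finset ℤ) ((RE y S L (j * s₀)).image (fun n : ℕ => (n : ℤ)) ∪
        (RE y S L (-(j * s₀))).image (fun n : ℕ => -(n : ℤ)))
    have e3 := card_union_le ((RE y S L (j * s₀)).image (fun n : ℕ => (n : ℤ)))
        ((RE y S L (-(j * s₀))).image (fun n : ℕ => -(n : ℤ)))
    have e4 := card_image_le (s := RE y S L (j * s₀)) (f := fun n : ℕ => (n : ℤ))
    have e5 := card_image_le (s := RE y S L (-(j * s₀))) (f := fun n : ℕ => -(n : ℤ))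
    rw [card_singleton] at e2
    have e6 : ((({0} : Finset ℤ) ∪ ((RE y S L (j * s₀)).image (fun n : ℕ => (n : ℤ)) ∪
        (RE y S L (-(j * s₀))).image (fun n : ℕ => -(n : ℤ)))).image (fun h => (j, h))).card ≤
        1 + ((RE y S L (j * s₀)).card + (RE y S L (-(j * s₀))).card) := by omega
    have e7 := (Nat.cast_le (α := ℝ)).mpr e6
    push_cast at e7
    have e8 := hB (j * s₀)
    have e9 := hB (-(j * s₀))
    linarith
  refine (sum_le_sum h3).trans (le_of_eq ?_)
  rw [sum_const, Nat.card_Icc, Nat.add_sub_cancel, nsmul_eq_mul]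

/-- a median -/
theorem med (A : Finset ℕ) : ∃ m : ℕ, A.card ≤ 2 * (A.filter (fun a => a ≤ m)).card ∧
    A.card ≤ 2 * (A.filter (fun a => m ≤ a)).card := by
  have hex : ∃ m : ℕ, A.card ≤ 2 * (A.filter (fun a => a ≤ m)).card := by
    refine ⟨A.sup id, ?_⟩
    rw [filter_true_of_mem]
    · omega
    · intro a ha
      exact le_sup (f := id) ha
  refine ⟨Nat.find hex, Nat.find_spec hex, ?_⟩
  rcases Nat.eq_zero_or_pos (Nat.find hex) with h0 | h0
  · rw [h0, filter_true_of_mem]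
    · omega
    · intro a _
      omega
  · have h1 := Nat.find_min hex (show Nat.find hex - 1 < Nat.find hex by omega)
    push Not at h1
    have h2 : A.card = (A.filter (fun a => a ≤ Nat.find hex - 1)).card +
        (A.filter (fun a => ¬ a ≤ Nat.find hex - 1)).card :=
      (card_filter_add_card_filter_not _).symm
    have h3 : A.filter (fun a => ¬ a ≤ Nat.find hex - 1) = A.filter (fun a => Nat.find hex ≤ a) := by
      apply filter_congr
      intro a _
      omega
    rw [h3] at h2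
    omega

/-- subsets whose sums are far from `-v` -/
theorem split (A B : Finset ℕ) (v : ℤ) (g : ℕ) : ∃ A' ⊆ A, ∃ B' ⊆ B,
    A.card ≤ 2 * (A'.card + g) ∧ B.card ≤ 2 * B'.card ∧
    ∀ a ∈ A', ∀ b ∈ B', (g : ℤ) ≤ |(a : ℤ) + b + v| := by
  obtain ⟨m, hm1, hm2⟩ := med A
  obtain ⟨n, hn1, hn2⟩ := med B
  rcases le_or_gt 0 ((m : ℤ) + n + v) with h | h
  · refine ⟨A.filter (fun a => m + g ≤ a), filter_subset _ _, B.filter (fun b => n ≤ b),
      filter_subset _ _, ?_, hn2, ?_⟩
    · have h1 : A.filter (fun a => m ≤ a) ⊆ A.filter (fun a => m + g ≤ a) ∪ Ico m (m + g) := by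
        intro a ha
        rw [mem_filter] at ha
        rw [mem_union, mem_filter, mem_Ico]
        by_cases hc : m + g ≤ a
        · exact Or.inl ⟨ha.1, hc⟩
        · exact Or.inr ⟨ha.2, by omega⟩
      have h2 := (card_le_card h1).trans (card_union_le _ _)
      rw [Nat.card_Ico] at h2
      omega
    · intro a ha b hb
      have h1 := (mem_filter.mp ha).2
      have h2 := (mem_filter.mp hb).2
      refine le_trans ?_ (le_abs_self _)
      omega
  · refine ⟨A.filter (fun a => a + g ≤ m), filter_subset _ _, B.filter (fun b => b ≤ n),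
      filter_subset _ _, ?_, hn1, ?_⟩
    · have h1 : A.filter (fun a => a ≤ m) ⊆ A.filter (fun a => a + g ≤ m) ∪ Icc (m + 1 - g) m := by
        intro a ha
        rw [mem_filter] at ha
        rw [mem_union, mem_filter, mem_Icc]
        by_cases hc : a + g ≤ m
        · exact Or.inl ⟨ha.1, hc⟩
        · exact Or.inr ⟨by omega, ha.2⟩
      have h2 := (card_le_card h1).trans (card_union_le _ _)
      rw [Nat.card_Icc] at h2
      omega
    · intro a ha b hb
      have h1 := (mem_filter.mp ha).2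
      have h2 := (mem_filter.mp hb).2
      refine le_trans ?_ (neg_le_abs _)
      omega

theorem ev_fin (K : ℕ) : ∃ X₀ : ℝ, ∀ X : ℝ, X₀ ≤ X →
    Real.log X * Real.log (Real.log X) ≤ 1 * ff X ∧ 4 ≤ Real.log X ∧
    X ^ (1 / 200 : ℝ) + 1 ≤ X / (Real.log X) ^ K / 4 := by
  have key : ∀ᶠ X : ℝ in atTop, Real.log X * Real.log (Real.log X) ≤ 1 * ff X ∧ 4 ≤ Real.log X ∧
    X ^ (1 / 200 : ℝ) + 1 ≤ X / (Real.log X) ^ K / 4 := by
    have h1 : ∀ᶠ X : ℝ in atTop, (Real.log X) ^ K ≤ X ^ (1 / 2 : ℝ) := by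
      have e := (isLittleO_log_rpow_rpow_atTop (s := 1 / 2) (K : ℝ) (by norm_num)).bound one_pos
      filter_upwards [e, eventually_gt_atTop (1 : ℝ)] with X hX hX1
      rw [Real.norm_of_nonneg (Real.rpow_nonneg (Real.log_nonneg hX1.le) _), one_mul,
        Real.norm_of_nonneg (Real.rpow_nonneg (by linarith) _), Real.rpow_natCast] at hX
      exact hX
    have h2 : ∀ᶠ X : ℝ in atTop, 8 ≤ X ^ (1 / 4 : ℝ) :=
      (tendsto_rpow_atTop (by norm_num)).eventually_ge_atTop _
    filter_upwards [eventually_gt_atTop (1 : ℝ), t1.eventually (eventually_ge_atTop 4),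
      t2.eventually ev_log_sq, t2.eventually (eventually_ge_atTop 1),
      t3.eventually (eventually_ge_atTop 1), t4.eventually (eventually_ge_atTop 1), h1, h2] with
      X e0 e1 e2 e3 e4 e5 e6 e7
    set l1 := Real.log X with hl1
    set l2 := Real.log l1 with hl2
    set l3 := Real.log l2 with hl3
    set l4 := Real.log l3 with hl4
    have hX0 : 0 < X := by linarith
    refine ⟨?_, e1, ?_⟩
    · have hff : ff X = l1 * l2 ^ 2 * l4 / l3 ^ 2 := rfl
      rw [one_mul, hff, le_div_iff₀ (by positivity)]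
      have h3 : l3 ^ 2 ≤ l2 := by
        have : l3 ^ 2 ≤ l2 / 2 := e2
        linarith
      have h4 : 0 ≤ l1 * l2 := by positivity
      calc l1 * l2 * l3 ^ 2 ≤ l1 * l2 * l2 := mul_le_mul_of_nonneg_left h3 h4
        _ = l1 * l2 ^ 2 * 1 := by ring
        _ ≤ l1 * l2 ^ 2 * l4 := mul_le_mul_of_nonneg_left e5 (by positivity)
    · set z : ℝ := X ^ (1 / 4 : ℝ) with hz
      have hz1 : 1 ≤ z := by linarith
      have f1 : X ^ (1 / 2 : ℝ) = z ^ 2 := by
        rw [hz, ← Real.rpow_natCast, ← Real.rpow_mul hX0.le]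
        norm_num
      have f2 : X = z ^ 4 := by
        rw [hz, ← Real.rpow_natCast, ← Real.rpow_mul hX0.le]
        norm_num
      have f3 : X ^ (1 / 200 : ℝ) ≤ z := Real.rpow_le_rpow_of_exponent_le e0.le (by norm_num)
      have f4 : 0 < l1 ^ K := by positivity
      have f5 : z ^ 2 ≤ X / l1 ^ K := by
        rw [le_div_iff₀ f4]
        calc z ^ 2 * l1 ^ K ≤ z ^ 2 * z ^ 2 := by
              apply mul_le_mul_of_nonneg_left _ (by positivity)
              rw [← f1]
              exact e6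
          _ = X := by rw [f2]; ring
      nlinarith
  obtain ⟨X₀, hX₀⟩ := eventually_atTop.1 key
  exact ⟨X₀, hX₀⟩

theorem main_sum (J K : ℕ) (hJ : 1 ≤ J) : ∃ c : ℝ, 0 < c ∧ ∃ N₀ : ℕ, ∀ N : ℕ, N₀ ≤ N →
    ∀ A B : Finset ℕ, A ⊆ Icc 1 N → B ⊆ Icc 1 N → (N : ℝ) / (Real.log N) ^ K ≤ A.card →
    (N : ℝ) / (Real.log N) ^ K ≤ B.card → ∀ v : ℤ,
    ∃ a ∈ A, ∃ b ∈ B, ∀ j ∈ Icc 1 J, ∀ p : ℕ, p.Prime →
      c * ff N < abs ((p : ℝ) - j * |(a : ℝ) + b + v|) := by
  obtain ⟨c₀, hc₀, N₁, hcore⟩ := core J (K + 1) hJ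
  obtain ⟨C, hC, y₀, hsurv⟩ := surv8
  have hJr : (1 : ℝ) ≤ J := by exact_mod_cast hJ
  set c₃ : ℝ := c₀ / (32 * J * C) with hc₃
  have hc₃0 : 0 < c₃ := by positivity
  obtain ⟨X₁, hev⟩ := ev_par c₃ hc₃0 J y₀
  obtain ⟨X₂, hev2⟩ := ev_fin K
  obtain ⟨X₃, hev3⟩ : ∃ X₃ : ℝ, ∀ X : ℝ, X₃ ≤ X → 2 * (J : ℝ) / c₀ ≤ Real.log X :=
    eventually_atTop.1 (Real.tendsto_log_atTop.eventually_ge_atTop _)
  refine ⟨c₃ / 2, by positivity, max N₁ ⌈max (max X₁ X₂) X₃⌉₊, ?_⟩
  intro N hN A B hA hB hAc hBc v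
  have hN1 : N₁ ≤ N := (le_max_left _ _).trans hN
  have hNX : max (max X₁ X₂) X₃ ≤ (N : ℝ) :=
    (Nat.le_ceil _).trans (by exact_mod_cast (le_max_right _ _).trans hN)
  set X : ℝ := (N : ℝ) with hX
  obtain ⟨s1, s2, s3⟩ := hev2 X (((le_max_right _ _).trans (le_max_left _ _)).trans hNX)
  have s4 := hev3 X ((le_max_right _ _).trans hNX)
  obtain ⟨e1, e2, e3, e4, e5, e6, e7, e8, e9, e10, e11, e12, e13, e14⟩ :=
    hev X (((le_max_left _ _).trans (le_max_left _ _)).trans hNX) 1 le_rfl s1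
  have hX0 : 0 < X := by linarith
  have hl0 : 0 < Real.log X := by linarith
  set y : ℝ := Real.log X / 10 with hy
  have hy0 : 0 ≤ y := by positivity
  set L : ℕ := ⌊c₃ * (1 * ff X)⌋₊ with hL
  obtain ⟨S, hS, hSc⟩ := hsurv y e2 L e6 e7
  -- splitting
  set g : ℕ := ⌈X ^ (1 / 200 : ℝ)⌉₊ with hg
  have hg1 : X ^ (1 / 200 : ℝ) ≤ g := Nat.le_ceil _
  have hg2 : (g : ℝ) < X ^ (1 / 200 : ℝ) + 1 := Nat.ceil_lt_add_one (Real.rpow_nonneg hX0.le _)
  obtain ⟨A', hA', B', hB', hAA, hBB, hsep⟩ := split A B v g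
  have hA'c : X / (Real.log X) ^ (K + 1) ≤ A'.card := by
    have h1 : (A.card : ℝ) ≤ 2 * (A'.card + g) := by exact_mod_cast hAA
    have h2 : X / (Real.log X) ^ K / 4 ≤ A'.card := by linarith
    refine le_trans ?_ h2
    rw [pow_succ, ← div_div]
    exact div_le_div_of_nonneg_left (by positivity) (by norm_num) s2
  have hB'c : X / (Real.log X) ^ (K + 1) ≤ B'.card := by
    have h1 : (B.card : ℝ) ≤ 2 * B'.card := by exact_mod_cast hBB
    have h3 : 0 ≤ X / (Real.log X) ^ K := by positivity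
    have h2 : X / (Real.log X) ^ K / 4 ≤ B'.card := by linarith
    refine le_trans ?_ h2
    rw [pow_succ, ← div_div]
    exact div_le_div_of_nonneg_left (by positivity) (by norm_num) s2
  set P₀ : ℕ := ∏ p ∈ Q0 y ((Real.log y) ^ 8), p with hP₀
  have h0 : 0 < P₀ := prod_pos fun p hp => ((mem_Q0 hy0).mp hp).1.pos
  have h0R : (0 : ℝ) < P₀ := by exact_mod_cast h0
  have hclass : ∀ T : Finset ℕ, X / (Real.log X) ^ (K + 1) ≤ T.card →
      ∃ ρ : ℕ, X / (P₀ * (Real.log X) ^ (K + 1)) ≤ ((T.filter (fun a => a % P₀ = ρ)).card : ℝ) := by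
    intro T hT
    have hTne : T.Nonempty := by
      rw [← card_pos]
      by_contra hcon
      have h1 : T.card = 0 := by omega
      rw [h1] at hT
      have : 0 < X / (Real.log X) ^ (K + 1) := by positivity
      simp only [Nat.cast_zero] at hT
      linarith
    obtain ⟨ρ, _, hρ⟩ := pig T (range P₀) P₀ (fun a _ => mem_range.mpr (Nat.mod_lt _ h0)) hTne
    rw [card_range] at hρ
    refine ⟨ρ, ?_⟩
    have h1 : X / (P₀ * (Real.log X) ^ (K + 1)) = (X / (Real.log X) ^ (K + 1)) / P₀ := by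
      field_simp
    rw [h1, div_le_iff₀ h0R]
    linarith
  obtain ⟨ρ, hρ⟩ := hclass A' hA'c
  obtain ⟨σ, hσ⟩ := hclass B' hB'c
  obtain ⟨a, ha, b, hb, hfin⟩ := hcore N hN1 y ((Real.log y) ^ 8) rfl rfl L e6 e7 S hS A' B'
    (hA'.trans hA) (hB'.trans hB) v
    (by
      intro a ha b hb
      have h1 := hsep a ha b hb
      have h2 : ((g : ℤ) : ℝ) ≤ ((|(a : ℤ) + b + v| : ℤ) : ℝ) := by exact_mod_cast h1
      rw [Int.cast_abs] at h2
      push_cast at h2
      linarith) P₀ rfl ρ σ hρ hσ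
    (by
      set W : ℝ := ∏ p ∈ S, (1 - 1 / (p : ℝ)) with hW
      have hWf : ∀ p ∈ S, 0 ≤ 1 - 1 / (p : ℝ) ∧ 1 - 1 / (p : ℝ) ≤ 1 := by
        intro p hp
        have h1 : (1 : ℝ) ≤ p := by exact_mod_cast (hS p hp).1.one_lt.le
        have h2 : 1 / (p : ℝ) ≤ 1 := by
          rw [div_le_one (by linarith)]
          exact h1
        have h3 : 0 ≤ 1 / (p : ℝ) := by positivity
        exact ⟨by linarith, by linarith⟩
      have hW0 : 0 ≤ W := prod_nonneg fun p hp => (hWf p hp).1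
      have hW1 : W ≤ 1 := prod_le_one (fun p hp => (hWf p hp).1) fun p hp => (hWf p hp).2
      set D : ℝ := C * L * (Real.log (Real.log y)) ^ 2 /
        ((Real.log y) ^ 2 * Real.log (Real.log (Real.log y))) with hD
      have hLc : (L : ℝ) ≤ c₃ * (1 * ff X) := Nat.floor_le (by linarith)
      have hDle : D ≤ 8 * C * c₃ * Real.log X := by
        rw [hD]
        have h0 : 0 < (Real.log y) ^ 2 * Real.log (Real.log (Real.log y)) := by positivity
        rw [div_le_iff₀ h0]
        have h1 : C * L * (Real.log (Real.log y)) ^ 2 ≤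
            C * (c₃ * (1 * ff X)) * (Real.log (Real.log y)) ^ 2 := by
          apply mul_le_mul_of_nonneg_right _ (sq_nonneg _)
          exact mul_le_mul_of_nonneg_left hLc hC.le
        refine h1.trans ?_
        have h2 : C * (c₃ * (1 * ff X)) * (Real.log (Real.log y)) ^ 2 =
            C * c₃ / 4 * ((Real.log (Real.log y)) ^ 2 * (4 * ff X)) := by ring
        rw [h2]
        have h3 : 0 ≤ C * c₃ / 4 := by positivity
        refine (mul_le_mul_of_nonneg_left e14 h3).trans (le_of_eq ?_)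
        rw [hy]
        ring
      -- the maximum of the survivors
      by_cases hWz : W = 0
      · rw [hWz, mul_zero]
        positivity
      have hWp : 0 < W := lt_of_le_of_ne hW0 (Ne.symm hWz)
      have hRE : ∀ e : ℤ, ((RE y S L e).card : ℝ) ≤ D / W := by
        intro e
        rw [le_div_iff₀ hWp]
        exact hSc e
      have h1 := HH_card y S J L ((ρ : ℤ) + σ + v) (D / W) hRE
      have h2 : ((HH y ((Real.log y) ^ 8) S J L ((ρ : ℤ) + σ + v)).card : ℝ) * W ≤
          (J * (1 + 2 * (D / W))) * W := mul_le_mul_of_nonneg_right h1 hW0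
      refine h2.trans ?_
      have h3 : (J * (1 + 2 * (D / W))) * W = J * W + 2 * J * D := by
        field_simp
      rw [h3]
      have h4 : (J : ℝ) * W ≤ c₀ / 2 * Real.log X := by
        rw [div_le_iff₀ hc₀] at s4
        have : (J : ℝ) * W ≤ J * 1 := mul_le_mul_of_nonneg_left hW1 (Nat.cast_nonneg J)
        linarith
      have h5 : 2 * J * D ≤ c₀ / 2 * Real.log X := by
        calc 2 * J * D ≤ 2 * J * (8 * C * c₃ * Real.log X) :=
              mul_le_mul_of_nonneg_left hDle (by positivity)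
          _ = c₀ / 2 * Real.log X := by
              rw [hc₃]
              field_simp
              ring
      linarith)
  refine ⟨a, hA' ha, b, hB' hb, ?_⟩
  intro j hj p hp
  refine lt_of_le_of_lt ?_ (hfin j hj p hp)
  have h1 : c₃ * (1 * ff X) < L + 1 := Nat.lt_floor_add_one _
  linarith

end Pool.Agent.U642.DT
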