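import Pool.Agent.U642.DT.Fin

set_option autoImplicit false
set_option linter.unusedVariables false

/-! # Record gaps at the values of binary linear forms on two dense sets (helper642) -/

namespace Pool.Agent.U642.DT

open Finset Filter Pool.Agent.H256R2.SC Pool.Agent.U642.DS

open scoped Classical

/-- the multiples or reflected multiples of the elements of a set -/
theorem scale (A : Finset ℕ) (N N' : ℕ) (hA : A ⊆ Icc 1 N) (α : ℤ) (hα : α ≠ 0)
    (hN : α.natAbs * N ≤ N') : ∃ A' : Finset ℕ, A' ⊆ Icc 1 N' ∧ A'.card = A.card ∧ ∃ u : ℤ,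
      ∀ a' ∈ A', ∃ a ∈ A, (a' : ℤ) + u = α * a := by
  rcases lt_or_gt_of_ne hα with h | h
  · refine ⟨A.image (fun a => N' + 1 - α.natAbs * a), ?_, ?_, -((N' : ℤ) + 1), ?_⟩
    · intro x hx
      obtain ⟨a, ha, rfl⟩ := mem_image.mp hx
      have h1 := mem_Icc.mp (hA ha)
      have h2 : α.natAbs * a ≤ N' := (Nat.mul_le_mul_left _ h1.2).trans hN
      have h3 : 1 * 1 ≤ α.natAbs * a := Nat.mul_le_mul (by omega) h1.1
      rw [mem_Icc]
      generalize α.natAbs * a = z at h2 h3 ⊢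
      omega
    · apply card_image_of_injOn
      intro a ha b hb hab
      have h1 := mem_Icc.mp (hA ha)
      have h1' := mem_Icc.mp (hA hb)
      have h2 : α.natAbs * a ≤ N' := (Nat.mul_le_mul_left _ h1.2).trans hN
      have h2' : α.natAbs * b ≤ N' := (Nat.mul_le_mul_left _ h1'.2).trans hN
      simp only at hab
      have h3 : α.natAbs * a = α.natAbs * b := by
        generalize α.natAbs * a = z at h2 hab ⊢
        generalize α.natAbs * b = z' at h2' hab ⊢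
        omega
      exact Nat.eq_of_mul_eq_mul_left (by omega) h3
    · intro x hx
      obtain ⟨a, ha, rfl⟩ := mem_image.mp hx
      have h1 := mem_Icc.mp (hA ha)
      have h2 : α.natAbs * a ≤ N' := (Nat.mul_le_mul_left _ h1.2).trans hN
      refine ⟨a, ha, ?_⟩
      rw [Nat.cast_sub (by omega)]
      push_cast
      rw [abs_of_neg h]
      ring
  · refine ⟨A.image (fun a => α.natAbs * a), ?_, ?_, 0, ?_⟩
    · intro x hx
      obtain ⟨a, ha, rfl⟩ := mem_image.mp hx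
      have h1 := mem_Icc.mp (hA ha)
      have h2 : α.natAbs * a ≤ N' := (Nat.mul_le_mul_left _ h1.2).trans hN
      have h3 : 1 * 1 ≤ α.natAbs * a := Nat.mul_le_mul (by omega) h1.1
      rw [mem_Icc]
      exact ⟨by omega, h2⟩
    · apply card_image_of_injOn
      intro a ha b hb hab
      simp only at hab
      exact Nat.eq_of_mul_eq_mul_left (by omega) hab
    · intro x hx
      obtain ⟨a, ha, rfl⟩ := mem_image.mp hx
      refine ⟨a, ha, ?_⟩
      push_cast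
      rw [abs_of_pos h]
      ring

theorem ff_compare : ∃ X₀ : ℝ, ∀ X Y : ℝ, X₀ ≤ X → X ≤ Y → Y ≤ X ^ 2 → ff X / 4 ≤ ff Y := by
  have key : ∀ᶠ X : ℝ in atTop, 1 < X ∧ 1 ≤ Real.log X ∧ 1 ≤ Real.log (Real.log X) ∧
      1 ≤ Real.log (Real.log (Real.log X)) ∧ 1 ≤ Real.log (Real.log (Real.log (Real.log X))) := by
    filter_upwards [eventually_gt_atTop (1 : ℝ), t1.eventually (eventually_ge_atTop 1),
      t2.eventually (eventually_ge_atTop 1), t3.eventually (eventually_ge_atTop 1),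
      t4.eventually (eventually_ge_atTop 1)] with X e0 e1 e2 e3 e4
    exact ⟨e0, e1, e2, e3, e4⟩
  obtain ⟨X₀, hX₀⟩ := eventually_atTop.1 key
  refine ⟨X₀, ?_⟩
  intro X Y hX hXY hY2
  obtain ⟨e0, e1, e2, e3, e4⟩ := hX₀ X hX
  obtain ⟨g0, g1, g2, g3, g4⟩ := hX₀ Y (hX.trans hXY)
  set l1 := Real.log X with hl1
  set l2 := Real.log l1 with hl2
  set l3 := Real.log l2 with hl3
  set l4 := Real.log l3 with hl4
  set m1 := Real.log Y with hm1
  set m2 := Real.log m1 with hm2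
  set m3 := Real.log m2 with hm3
  set m4 := Real.log m3 with hm4
  have a1 : l1 ≤ m1 := Real.log_le_log (by linarith) hXY
  have a2 : l2 ≤ m2 := Real.log_le_log (by linarith) a1
  have a3 : l3 ≤ m3 := Real.log_le_log (by linarith) a2
  have a4 : l4 ≤ m4 := Real.log_le_log (by linarith) a3
  have b1 : m1 ≤ 2 * l1 := by
    have := Real.log_le_log (by linarith) hY2
    rw [Real.log_pow] at this
    exact_mod_cast this
  have hlog2 : Real.log 2 < 0.7 := by have := Real.log_two_lt_d9; linarith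
  have b2 : m2 ≤ 2 * l2 := by
    have := Real.log_le_log (by linarith) b1
    rw [Real.log_mul (by norm_num) (by linarith)] at this
    linarith
  have b3 : m3 ≤ 2 * l3 := by
    have := Real.log_le_log (by linarith) b2
    rw [Real.log_mul (by norm_num) (by linarith)] at this
    linarith
  have hX : ff X = l1 * l2 ^ 2 * l4 / l3 ^ 2 := rfl
  have hY : ff Y = m1 * m2 ^ 2 * m4 / m3 ^ 2 := rfl
  rw [hX, hY, div_div, div_le_div_iff₀ (by positivity) (by positivity)]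
  have c1 : m3 ^ 2 ≤ (2 * l3) ^ 2 := pow_le_pow_left₀ (by linarith) b3 2
  have c2 : l1 * l2 ^ 2 * l4 ≤ m1 * m2 ^ 2 * m4 := by gcongr
  calc l1 * l2 ^ 2 * l4 * m3 ^ 2 ≤ (m1 * m2 ^ 2 * m4) * (2 * l3) ^ 2 := by
        apply mul_le_mul c2 c1 (by positivity) (by positivity)
    _ = m1 * m2 ^ 2 * m4 * (l3 ^ 2 * 4) := by ring

theorem main_form (J K : ℕ) (hJ : 1 ≤ J) : ∃ c : ℝ, 0 < c ∧ ∃ N₀ : ℕ, ∀ N : ℕ, N₀ ≤ N →
    ∀ A B : Finset ℕ, A ⊆ Icc 1 N → B ⊆ Icc 1 N → (N : ℝ) / (Real.log N) ^ K ≤ A.card →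
    (N : ℝ) / (Real.log N) ^ K ≤ B.card → ∀ α β v : ℤ, α ≠ 0 → β ≠ 0 →
    |(α : ℝ)| ≤ (Real.log N) ^ K → |(β : ℝ)| ≤ (Real.log N) ^ K →
    ∃ a ∈ A, ∃ b ∈ B, ∀ j ∈ Icc 1 J, ∀ p : ℕ, p.Prime →
      c * ff N < abs ((p : ℝ) - j * |(α : ℝ) * a + β * b + v|) := by
  obtain ⟨c, hc, N₁, hmain⟩ := main_sum J (2 * K) hJ
  obtain ⟨X₁, hff⟩ := ff_compare
  obtain ⟨X₂, hev⟩ : ∃ X₂ : ℝ, ∀ X : ℝ, X₂ ≤ X → 1 < X ∧ 1 ≤ Real.log X ∧ (Real.log X) ^ K ≤ X := by
    have e := (Real.isLittleO_pow_log_id_atTop (n := K)).bound one_pos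
    have key : ∀ᶠ X : ℝ in atTop, 1 < X ∧ 1 ≤ Real.log X ∧ (Real.log X) ^ K ≤ X := by
      filter_upwards [e, eventually_gt_atTop (1 : ℝ), t1.eventually (eventually_ge_atTop 1)] with
        X h1 h2 h3
      rw [Real.norm_of_nonneg (pow_nonneg (by linarith) _), one_mul, id,
        Real.norm_of_nonneg (by linarith)] at h1
      exact ⟨h2, h3, h1⟩
    exact eventually_atTop.1 key
  refine ⟨c / 4, by positivity, max N₁ ⌈max X₁ X₂⌉₊, ?_⟩
  intro N hN A B hA hB hAc hBc α β v hα hβ hαK hβK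
  have hN1 : N₁ ≤ N := (le_max_left _ _).trans hN
  have hNX : max X₁ X₂ ≤ (N : ℝ) :=
    (Nat.le_ceil _).trans (by exact_mod_cast (le_max_right _ _).trans hN)
  obtain ⟨e1, e2, e3⟩ := hev (N : ℝ) ((le_max_right _ _).trans hNX)
  set l : ℝ := Real.log N with hl
  have hN0 : (0 : ℝ) < N := by linarith
  set m : ℕ := max α.natAbs β.natAbs with hm
  have hm1 : 1 ≤ m := le_trans (by omega : 1 ≤ α.natAbs) (le_max_left _ _)
  have hmK : (m : ℝ) ≤ l ^ K := by
    have h1 : ((α.natAbs : ℕ) : ℝ) ≤ l ^ K := by rw [Nat.cast_natAbs, Int.cast_abs]; exact hαK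
    have h2 : ((β.natAbs : ℕ) : ℝ) ≤ l ^ K := by rw [Nat.cast_natAbs, Int.cast_abs]; exact hβK
    rw [hm]
    rcases max_choice α.natAbs β.natAbs with h | h
    · rw [h]; exact h1
    · rw [h]; exact h2
  set N' : ℕ := m * N with hN'
  have hNN : N ≤ N' := by
    calc N = 1 * N := (one_mul N).symm
      _ ≤ m * N := Nat.mul_le_mul_right _ hm1
  have hN'R : (N' : ℝ) = m * N := by rw [hN']; push_cast; rfl
  have hN'le : (N' : ℝ) ≤ (N : ℝ) ^ 2 := by
    rw [hN'R, sq]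
    exact mul_le_mul_of_nonneg_right (hmK.trans e3) hN0.le
  have hNNR : (N : ℝ) ≤ N' := by exact_mod_cast hNN
  obtain ⟨A', hA', hA'c, u, hu⟩ := scale A N N' hA α hα (Nat.mul_le_mul_right _ (le_max_left _ _))
  obtain ⟨B', hB', hB'c, w, hw⟩ := scale B N N' hB β hβ (Nat.mul_le_mul_right _ (le_max_right _ _))
  have hdens : ∀ T : ℕ, (N : ℝ) / l ^ K ≤ T → (N' : ℝ) / (Real.log N') ^ (2 * K) ≤ T := by
    intro T hT
    refine le_trans ?_ hT
    have hl1 : l ≤ Real.log N' := Real.log_le_log hN0 hNNR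
    have h1 : l ^ (2 * K) ≤ (Real.log N') ^ (2 * K) := pow_le_pow_left₀ (by linarith) hl1 _
    have h2 : (N' : ℝ) / (Real.log N') ^ (2 * K) ≤ N' / l ^ (2 * K) :=
      div_le_div_of_nonneg_left (Nat.cast_nonneg _) (by positivity) h1
    refine h2.trans ?_
    rw [hN'R, two_mul, pow_add, div_le_div_iff₀ (by positivity) (by positivity)]
    have h3 : (0 : ℝ) < l ^ K := by positivity
    calc (m : ℝ) * N * l ^ K ≤ l ^ K * N * l ^ K := by gcongr
      _ = N * (l ^ K * l ^ K) := by ring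
  obtain ⟨a', ha', b', hb', hfin⟩ := hmain N' (hN1.trans hNN) A' B' hA' hB'
    (hdens _ (by rw [hA'c]; exact hAc)) (hdens _ (by rw [hB'c]; exact hBc)) (u + w + v)
  obtain ⟨a, ha, hae⟩ := hu a' ha'
  obtain ⟨b, hb, hbe⟩ := hw b' hb'
  refine ⟨a, ha, b, hb, ?_⟩
  intro j hj p hp
  have h1 := hfin j hj p hp
  have h2 : ((a' : ℝ) + b' + ((u + w + v : ℤ) : ℝ)) = (α : ℝ) * a + β * b + v := by
    have h3 : ((a' : ℤ) : ℝ) + u = α * ((a : ℤ) : ℝ) := by exact_mod_cast hae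
    have h4 : ((b' : ℤ) : ℝ) + w = β * ((b : ℤ) : ℝ) := by exact_mod_cast hbe
    push_cast at h3 h4 ⊢
    linarith
  rw [h2] at h1
  refine lt_of_le_of_lt ?_ h1
  have h3 := hff (N : ℝ) (N' : ℝ) ((le_max_left _ _).trans hNX) hNNR hN'le
  nlinarith

end Pool.Agent.U642.DT
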