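import Pool.Agent.U642.DS.Rig

set_option autoImplicit false
set_option linter.unusedVariables false

/-! # Concentration of measure for residue classes modulo a product of primes (helper642)

Two sets of residue classes modulo `∏ p ∈ S, p` which are not too small contain two classes which agree
modulo all primes outside a set `E` with a small sum of the weights `w p`. -/

namespace Pool.Agent.U642.DT

open Finset Filter Pool.Agent.U642.DS

open scoped Classical

theorem crt_split (P p : ℕ) (h : Nat.Coprime P p) (hP : 0 < P) (hp : 0 < p) (F : ℕ → ℝ) :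
    ∑ s ∈ range (P * p), F s = ∑ b ∈ range p, ∑ a ∈ range P, F (rc h a b) := by
  rw [← sum_product' (range p) (range P) (fun b a => F (rc h a b))]
  refine Finset.sum_nbij' (fun s => (s % p, s % P)) (fun x => rc h x.2 x.1) ?_ ?_ ?_ ?_ ?_
  · intro s _
    rw [mem_product, mem_range, mem_range]
    exact ⟨Nat.mod_lt _ hp, Nat.mod_lt _ hP⟩
  · intro x _
    rw [mem_range]
    exact (rc_spec h hP hp x.2 x.1).2.2
  · intro s hs
    have h1 := rc_mod h hP hp (s % P) s rfl
    rw [Nat.mod_eq_of_lt (mem_range.mp hs)] at h1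
    exact h1.symm
  · rintro ⟨b, a⟩ hx
    rw [mem_product, mem_range, mem_range] at hx
    obtain ⟨e1, e2, _⟩ := rc_spec h hP hp a b
    ext
    · simp only
      have : rc h a b % p = b % p := e2
      rw [this, Nat.mod_eq_of_lt hx.1]
    · simp only
      have : rc h a b % P = a % P := e1
      rw [this, Nat.mod_eq_of_lt hx.2]
  · intro s hs
    have h1 := rc_mod h hP hp (s % P) s rfl
    rw [Nat.mod_eq_of_lt (mem_range.mp hs)] at h1
    simp only
    rw [← h1]

theorem hoeff (n : ℕ) (hn : 0 < n) (g : ℕ → ℝ) (w lam : ℝ) (hw : 0 ≤ w) (hl : 0 ≤ lam)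
    (hlw : lam * w ≤ 1) (hg : ∀ b ∈ range n, ∀ b' ∈ range n, |g b - g b'| ≤ w) :
    (∑ b ∈ range n, Real.exp (-lam * g b)) / n ≤
      Real.exp (-lam * ((∑ b ∈ range n, g b) / n) + (lam * w) ^ 2) := by
  set G : ℝ := (∑ b ∈ range n, g b) / n with hG
  have hnR : (0 : ℝ) < n := by exact_mod_cast hn
  have hGs : ∑ b ∈ range n, g b = n * G := by rw [hG]; field_simp
  have hdev : ∀ b ∈ range n, |g b - G| ≤ w := by
    intro b hb
    have h1 : (n : ℝ) * (g b - G) = ∑ b' ∈ range n, (g b - g b') := by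
      rw [sum_sub_distrib, sum_const, card_range, nsmul_eq_mul, hGs]
      ring
    have h2 : |(n : ℝ) * (g b - G)| ≤ n * w := by
      rw [h1]
      refine (abs_sum_le_sum_abs _ _).trans ?_
      refine (sum_le_sum fun b' hb' => hg b hb b' hb').trans (le_of_eq ?_)
      rw [sum_const, card_range, nsmul_eq_mul]
    rw [abs_mul, abs_of_pos hnR] at h2
    exact le_of_mul_le_mul_left h2 hnR
  have h1 : ∀ b ∈ range n, Real.exp (-lam * g b) ≤
      Real.exp (-lam * G) * (1 - lam * (g b - G) + (lam * w) ^ 2) := by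
    intro b hb
    have e1 : Real.exp (-lam * g b) = Real.exp (-lam * G) * Real.exp (-(lam * (g b - G))) := by
      rw [← Real.exp_add]
      congr 1
      ring
    rw [e1]
    apply mul_le_mul_of_nonneg_left _ (Real.exp_pos _).le
    have e2 : |-(lam * (g b - G))| ≤ lam * w := by
      rw [abs_neg, abs_mul, abs_of_nonneg hl]
      exact mul_le_mul_of_nonneg_left (hdev b hb) hl
    have e3 := (abs_le.mp (Real.abs_exp_sub_one_sub_id_le (e2.trans hlw))).2
    have e4 : (-(lam * (g b - G))) ^ 2 ≤ (lam * w) ^ 2 := sq_le_sq' (by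
      have := (abs_le.mp e2).1
      linarith) (abs_le.mp e2).2
    linarith
  have h2 : ∑ b ∈ range n, Real.exp (-lam * g b) ≤
      Real.exp (-lam * G) * (n * (1 + (lam * w) ^ 2)) := by
    refine (sum_le_sum h1).trans (le_of_eq ?_)
    rw [← mul_sum]
    congr 1
    rw [sum_add_distrib, sum_sub_distrib, ← mul_sum, sum_sub_distrib, hGs]
    simp only [sum_const, card_range, nsmul_eq_mul]
    ring
  rw [div_le_iff₀ hnR, Real.exp_add]
  refine h2.trans ?_
  have h3 : 1 + (lam * w) ^ 2 ≤ Real.exp ((lam * w) ^ 2) := by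
    have := Real.add_one_le_exp ((lam * w) ^ 2)
    linarith
  calc Real.exp (-lam * G) * (n * (1 + (lam * w) ^ 2))
      ≤ Real.exp (-lam * G) * (n * Real.exp ((lam * w) ^ 2)) :=
        mul_le_mul_of_nonneg_left (mul_le_mul_of_nonneg_left h3 hnR.le) (Real.exp_pos _).le
    _ = _ := by ring

theorem cop_prod (S : Finset ℕ) (p : ℕ) (hp : p.Prime) (hS : ∀ q ∈ S, q.Prime) (hpS : p ∉ S) :
    Nat.Coprime (∏ q ∈ S, q) p := by
  apply Nat.Coprime.prod_left
  intro q hq
  exact (Nat.coprime_primes (hS q hq) hp).mpr fun h => hpS (h ▸ hq)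

theorem conc_fun (lam : ℝ) (hl : 0 ≤ lam) (w : ℕ → ℝ) (hw : ∀ q, 0 ≤ w q) (S : Finset ℕ) :
    (∀ q ∈ S, q.Prime) → (∀ q ∈ S, lam * w q ≤ 1) → ∀ f : ℕ → ℝ,
    (∀ q ∈ S, ∀ s ∈ range (∏ p ∈ S, p), ∀ s' ∈ range (∏ p ∈ S, p),
      (∀ p ∈ S, p ≠ q → s ≡ s' [MOD p]) → |f s - f s'| ≤ w q) →
    (∑ s ∈ range (∏ p ∈ S, p), Real.exp (-lam * f s)) / (∏ p ∈ S, p : ℕ) ≤
      Real.exp (-lam * ((∑ s ∈ range (∏ p ∈ S, p), f s) / (∏ p ∈ S, p : ℕ)) +
        ∑ q ∈ S, (lam * w q) ^ 2) := by
  induction S using Finset.induction_on with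
  | empty =>
    intro _ _ f _
    simp
  | insert p S hpS ih =>
    intro hpr hlw f hf
    have hp : p.Prime := hpr p (mem_insert_self _ _)
    have hS : ∀ q ∈ S, q.Prime := fun q hq => hpr q (mem_insert_of_mem hq)
    have hcop := cop_prod S p hp hS hpS
    set P : ℕ := ∏ q ∈ S, q with hP
    have hP0 : 0 < P := prod_pos fun q hq => (hS q hq).pos
    have hPR : (0 : ℝ) < P := by exact_mod_cast hP0
    have hpR : (0 : ℝ) < p := by exact_mod_cast hp.pos
    have hPP : ∏ q ∈ insert p S, q = P * p := by rw [prod_insert hpS, mul_comm]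
    rw [hPP] at hf ⊢
    rw [crt_split P p hcop hP0 hp.pos, crt_split P p hcop hP0 hp.pos, sum_insert hpS]
    -- congruences of the combined class
    have hc1 : ∀ a b, ∀ q ∈ S, rc hcop a b ≡ a [MOD q] := fun a b q hq =>
      (rc_spec hcop hP0 hp.pos a b).1.of_dvd (dvd_prod_of_mem (fun q => q) hq)
    have hc2 : ∀ a b, rc hcop a b ≡ b [MOD p] := fun a b => (rc_spec hcop hP0 hp.pos a b).2.1
    have hc3 : ∀ a b, rc hcop a b ∈ range (P * p) := fun a b =>
      mem_range.mpr (rc_spec hcop hP0 hp.pos a b).2.2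
    set g : ℕ → ℝ := fun b => (∑ a ∈ range P, f (rc hcop a b)) / P with hg
    have h1 : ∀ b ∈ range p, (∑ a ∈ range P, Real.exp (-lam * f (rc hcop a b))) / P ≤
        Real.exp (∑ q ∈ S, (lam * w q) ^ 2) * Real.exp (-lam * g b) := by
      intro b _
      have := ih hS (fun q hq => hlw q (mem_insert_of_mem hq)) (fun a => f (rc hcop a b)) (by
        intro q hq s hs s' hs' hss
        apply hf q (mem_insert_of_mem hq) _ (hc3 _ _) _ (hc3 _ _)
        intro p' hp' hpq
        rcases mem_insert.mp hp' with rfl | hp'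
        · exact (hc2 s b).trans (hc2 s' b).symm
        · exact (hc1 s b p' hp').trans ((hss p' hp' hpq).trans (hc1 s' b p' hp').symm))
      refine this.trans (le_of_eq ?_)
      rw [← Real.exp_add]
      congr 1
      simp only [hg]
      ring
    have h2 : ∀ b ∈ range p, ∀ b' ∈ range p, |g b - g b'| ≤ w p := by
      intro b _ b' _
      have e1 : (P : ℝ) * (g b - g b') = ∑ a ∈ range P, (f (rc hcop a b) - f (rc hcop a b')) := by
        simp only [hg]
        rw [sum_sub_distrib]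
        field_simp
      have e2 : |(P : ℝ) * (g b - g b')| ≤ P * w p := by
        rw [e1]
        refine (abs_sum_le_sum_abs _ _).trans ?_
        refine (sum_le_sum fun a _ => ?_ : _ ≤ ∑ a ∈ range P, w p).trans (le_of_eq ?_)
        · apply hf p (mem_insert_self _ _) _ (hc3 _ _) _ (hc3 _ _)
          intro q hq hqp
          rcases mem_insert.mp hq with rfl | hq
          · exact absurd rfl hqp
          · exact (hc1 a b q hq).trans (hc1 a b' q hq).symm
        · rw [sum_const, card_range, nsmul_eq_mul]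
      rw [abs_mul, abs_of_pos hPR] at e2
      exact le_of_mul_le_mul_left e2 hPR
    have h3 := hoeff p hp.pos g (w p) lam (hw p) hl (hlw p (mem_insert_self _ _)) h2
    have h4 : (∑ b ∈ range p, ∑ a ∈ range P, Real.exp (-lam * f (rc hcop a b))) / ((P * p : ℕ) : ℝ) =
        (∑ b ∈ range p, (∑ a ∈ range P, Real.exp (-lam * f (rc hcop a b))) / P) / p := by
      rw [← sum_div, div_div]
      push_cast
      rfl
    have h5 : (∑ b ∈ range p, ∑ a ∈ range P, f (rc hcop a b)) / ((P * p : ℕ) : ℝ) =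
        (∑ b ∈ range p, g b) / p := by
      simp only [hg]
      rw [← sum_div, div_div]
      push_cast
      rfl
    rw [h4, h5]
    calc (∑ b ∈ range p, (∑ a ∈ range P, Real.exp (-lam * f (rc hcop a b))) / P) / p
        ≤ (∑ b ∈ range p, Real.exp (∑ q ∈ S, (lam * w q) ^ 2) * Real.exp (-lam * g b)) / p :=
          div_le_div_of_nonneg_right (sum_le_sum h1) hpR.le
      _ = Real.exp (∑ q ∈ S, (lam * w q) ^ 2) * ((∑ b ∈ range p, Real.exp (-lam * g b)) / p) := by
          rw [← mul_sum, mul_div_assoc]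
      _ ≤ Real.exp (∑ q ∈ S, (lam * w q) ^ 2) *
            Real.exp (-lam * ((∑ b ∈ range p, g b) / p) + (lam * w p) ^ 2) :=
          mul_le_mul_of_nonneg_left h3 (Real.exp_pos _).le
      _ = _ := by
          rw [← Real.exp_add]
          congr 1
          ring

/-- weighted Hamming distance of two classes -/
noncomputable def dd (S : Finset ℕ) (w : ℕ → ℝ) (s t : ℕ) : ℝ :=
  ∑ q ∈ S.filter (fun q => ¬ s ≡ t [MOD q]), w q

theorem dd_tri (S : Finset ℕ) (w : ℕ → ℝ) (hw : ∀ q, 0 ≤ w q) (s t u : ℕ) :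
    dd S w s u ≤ dd S w t s + dd S w t u := by
  unfold dd
  have h1 : S.filter (fun q => ¬ s ≡ u [MOD q]) ⊆
      S.filter (fun q => ¬ t ≡ s [MOD q]) ∪ S.filter (fun q => ¬ t ≡ u [MOD q]) := by
    intro q hq
    rw [mem_filter] at hq
    rw [mem_union, mem_filter, mem_filter]
    by_contra hcon
    push Not at hcon
    exact hq.2 ((hcon.1 hq.1).symm.trans (hcon.2 hq.1))
  refine (sum_le_sum_of_subset_of_nonneg h1 fun q _ _ => hw q).trans ?_
  have h2 := sum_union_inter (s₁ := S.filter (fun q => ¬ t ≡ s [MOD q]))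
    (s₂ := S.filter (fun q => ¬ t ≡ u [MOD q])) (f := w)
  have h3 : 0 ≤ ∑ q ∈ S.filter (fun q => ¬ t ≡ s [MOD q]) ∩ S.filter (fun q => ¬ t ≡ u [MOD q]), w q :=
    sum_nonneg fun q _ => hw q
  linarith

/-- distance to a set -/
noncomputable def DD (S : Finset ℕ) (w : ℕ → ℝ) (T : Finset ℕ) (hT : T.Nonempty) (s : ℕ) : ℝ :=
  T.inf' hT (fun t => dd S w s t)

theorem conc_one (lam : ℝ) (hl : 0 < lam) (w : ℕ → ℝ) (hw : ∀ q, 0 ≤ w q) (S : Finset ℕ)
    (hS : ∀ q ∈ S, q.Prime) (hlw : ∀ q ∈ S, lam * w q ≤ 1) (T : Finset ℕ)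
    (hT : T ⊆ range (∏ p ∈ S, p)) (hne : T.Nonempty) :
    (∑ s ∈ range (∏ p ∈ S, p), DD S w T hne s) / (∏ p ∈ S, p : ℕ) ≤
      Real.log ((∏ p ∈ S, p : ℕ) / T.card) / lam + lam * ∑ q ∈ S, (w q) ^ 2 := by
  set P : ℕ := ∏ q ∈ S, q with hP
  have hP0 : 0 < P := prod_pos fun q hq => (hS q hq).pos
  have hPR : (0 : ℝ) < P := by exact_mod_cast hP0
  have hTR : (0 : ℝ) < T.card := by exact_mod_cast card_pos.mpr hne
  have hone : ∀ q ∈ S, ∀ s s' : ℕ, (∀ p ∈ S, p ≠ q → s ≡ s' [MOD p]) →
      DD S w T hne s ≤ DD S w T hne s' + w q := by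
    intro q hq s s' hss
    obtain ⟨t, ht, hte⟩ := exists_mem_eq_inf' hne (fun t => dd S w s' t)
    have h1 : DD S w T hne s ≤ dd S w s t := inf'_le _ ht
    have h2 : DD S w T hne s' = dd S w s' t := hte
    rw [h2]
    refine h1.trans ((dd_tri S w hw s s' t).trans ?_)
    have h3 : dd S w s' s ≤ w q := by
      unfold dd
      have : S.filter (fun p => ¬ s' ≡ s [MOD p]) ⊆ {q} := by
        intro p hp
        rw [mem_filter] at hp
        rw [mem_singleton]
        by_contra hpq
        exact hp.2 (hss p hp.1 hpq).symm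
      refine (sum_le_sum_of_subset_of_nonneg this fun q _ _ => hw q).trans (le_of_eq ?_)
      rw [sum_singleton]
    linarith
  have h1 := conc_fun lam hl.le w hw S hS hlw (DD S w T hne) (by
    intro q hq s _ s' _ hss
    rw [abs_le]
    have e1 := hone q hq s s' hss
    have e2 := hone q hq s' s (fun p hp hpq => (hss p hp hpq).symm)
    constructor <;> linarith)
  rw [← hP] at h1
  set E : ℝ := (∑ s ∈ range P, DD S w T hne s) / P with hE
  have h2 : (T.card : ℝ) / P ≤ (∑ s ∈ range P, Real.exp (-lam * DD S w T hne s)) / P := by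
    apply div_le_div_of_nonneg_right _ hPR.le
    calc (T.card : ℝ) = ∑ s ∈ T, (1 : ℝ) := by rw [sum_const, nsmul_eq_mul, mul_one]
      _ ≤ ∑ s ∈ T, Real.exp (-lam * DD S w T hne s) := by
          apply sum_le_sum
          intro s hs
          have h0 : DD S w T hne s ≤ 0 := by
            have e1 : DD S w T hne s ≤ dd S w s s := inf'_le _ hs
            have e2 : dd S w s s = 0 := by
              unfold dd
              rw [filter_false_of_mem, sum_empty]
              intro q _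
              exact not_not.mpr (Nat.ModEq.refl _)
            linarith
          apply Real.one_le_exp
          nlinarith
      _ ≤ _ := sum_le_sum_of_subset_of_nonneg hT fun _ _ _ => (Real.exp_pos _).le
  have h3 := Real.log_le_log (by positivity) (h2.trans h1)
  rw [Real.log_exp] at h3
  have h4 : Real.log ((P : ℝ) / T.card) = - Real.log ((T.card : ℝ) / P) := by
    rw [← Real.log_inv, inv_div]
  have h5 : ∑ q ∈ S, (lam * w q) ^ 2 = lam * (lam * ∑ q ∈ S, (w q) ^ 2) := by
    rw [← mul_assoc, mul_sum]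
    apply sum_congr rfl
    intro q _
    ring
  rw [h5] at h3
  rw [h4]
  have h6 : lam * E ≤ - Real.log ((T.card : ℝ) / P) + lam * (lam * ∑ q ∈ S, (w q) ^ 2) := by linarith
  have h7 : E = (lam * E) / lam := by field_simp
  rw [h7]
  have h8 : (- Real.log ((T.card : ℝ) / P) + lam * (lam * ∑ q ∈ S, (w q) ^ 2)) / lam =
      - Real.log ((T.card : ℝ) / P) / lam + lam * ∑ q ∈ S, (w q) ^ 2 := by
    field_simp
  rw [← h8]
  exact div_le_div_of_nonneg_right h6 hl.le

/-- **concentration**: two sets of classes -/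
theorem conc_pair (lam : ℝ) (hl : 0 < lam) (w : ℕ → ℝ) (hw : ∀ q, 0 ≤ w q) (S : Finset ℕ)
    (hS : ∀ q ∈ S, q.Prime) (hlw : ∀ q ∈ S, lam * w q ≤ 1) (T T' : Finset ℕ)
    (hT : T ⊆ range (∏ p ∈ S, p)) (hne : T.Nonempty)
    (hT' : T' ⊆ range (∏ p ∈ S, p)) (hne' : T'.Nonempty) :
    ∃ t ∈ T, ∃ t' ∈ T', dd S w t t' ≤
      Real.log ((∏ p ∈ S, p : ℕ) / T.card) / lam + Real.log ((∏ p ∈ S, p : ℕ) / T'.card) / lam +
        2 * (lam * ∑ q ∈ S, (w q) ^ 2) := by
  have h1 := conc_one lam hl w hw S hS hlw T hT hne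
  have h2 := conc_one lam hl w hw S hS hlw T' hT' hne'
  set P : ℕ := ∏ q ∈ S, q with hP
  have hP0 : 0 < P := prod_pos fun q hq => (hS q hq).pos
  have hPR : (0 : ℝ) < P := by exact_mod_cast hP0
  set R : ℝ := Real.log ((P : ℝ) / T.card) / lam + Real.log ((P : ℝ) / T'.card) / lam +
        2 * (lam * ∑ q ∈ S, (w q) ^ 2) with hR
  have h3 : ∑ s ∈ range P, (DD S w T hne s + DD S w T' hne' s) ≤ ∑ s ∈ range P, R := by
    rw [sum_add_distrib, sum_const, card_range, nsmul_eq_mul]
    rw [div_le_iff₀ hPR] at h1 h2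
    rw [hR]
    linarith
  obtain ⟨s, _, hs⟩ := exists_le_of_sum_le (nonempty_range_iff.mpr hP0.ne') h3
  obtain ⟨t, ht, hte⟩ := exists_mem_eq_inf' hne (fun t => dd S w s t)
  obtain ⟨t', ht', hte'⟩ := exists_mem_eq_inf' hne' (fun t => dd S w s t)
  refine ⟨t, ht, t', ht', (dd_tri S w hw t s t').trans ?_⟩
  have e1 : DD S w T hne s = dd S w s t := hte
  have e2 : DD S w T' hne' s = dd S w s t' := hte'
  rw [← e1, ← e2]
  exact hs

end Pool.Agent.U642.DT
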