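import Pool.Agent.U642.DS.Soft2

set_option autoImplicit false
set_option linter.unusedVariables false

/-! # From two dense residue classes of two sets to a sum far from all primes (helper642) -/

namespace Pool.Agent.U642.DT

open Finset Filter Pool.Agent.H256R2.SC Pool.Agent.U642.DS

open scoped Classical

/-- the colours which are not covered by the primes up to `y` at `m` -/
noncomputable def UA (y : ℝ) (J L : ℕ) (m : ℤ) : Finset (ℕ × ℤ) :=
  ((Icc 1 J) ×ˢ (Icc (-(L : ℤ)) L)).filter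
    (fun k => ∀ p : ℕ, p.Prime → (p : ℝ) ≤ y → ¬ (p : ℤ) ∣ (k.1 : ℤ) * m + k.2)

theorem UA_coprime {y : ℝ} {J L : ℕ} {m : ℤ} (hy : (J : ℝ) + 2 ≤ y) {k : ℕ × ℤ}
    (hk : k ∈ UA y J L m) : 1 ≤ k.1 ∧ k.1 ≤ J ∧ |k.2| ≤ L ∧ IsCoprime (k.1 : ℤ) k.2 := by
  unfold UA at hk
  rw [mem_filter, mem_product, mem_Icc, mem_Icc] at hk
  obtain ⟨⟨⟨h1, h2⟩, h3, h4⟩, h5⟩ := hk
  refine ⟨h1, h2, abs_le.mpr ⟨h3, h4⟩, ?_⟩
  rw [Int.isCoprime_iff_gcd_eq_one]
  by_contra hne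
  obtain ⟨p, hp, hpd⟩ := Nat.exists_prime_and_dvd hne
  have h6 : (p : ℤ) ∣ (k.1 : ℤ) := (Int.natCast_dvd_natCast.mpr hpd).trans (Int.gcd_dvd_left _ _)
  have h7 : (p : ℤ) ∣ k.2 := (Int.natCast_dvd_natCast.mpr hpd).trans (Int.gcd_dvd_right _ _)
  have h8 : p ∣ k.1 := by exact_mod_cast h6
  have h9 : p ≤ J := (Nat.le_of_dvd (by omega) h8).trans h2
  have h10 : (p : ℝ) ≤ J := by exact_mod_cast h9
  exact h5 p hp (by linarith) (dvd_add (Dvd.dvd.mul_right h6 _) h7)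

theorem col_inj {J L : ℕ} {k l : ℕ × ℤ} (hk : 1 ≤ k.1 ∧ k.1 ≤ J ∧ |k.2| ≤ L ∧ IsCoprime (k.1 : ℤ) k.2)
    (hl : 1 ≤ l.1 ∧ l.1 ≤ J ∧ |l.2| ≤ L ∧ IsCoprime (l.1 : ℤ) l.2) (p : ℕ)
    (hp : 2 * J * L < p) (hd : (p : ℤ) ∣ (k.1 : ℤ) * l.2 - l.1 * k.2) : k = l := by
  obtain ⟨a1, a2, a3, a4⟩ := hk
  obtain ⟨b1, b2, b3, b4⟩ := hl
  have h1 : (k.1 : ℤ) * l.2 - l.1 * k.2 = 0 := by
    apply Int.eq_zero_of_abs_lt_dvd hd
    have e1 : |(k.1 : ℤ) * l.2| ≤ J * L := by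
      rw [abs_mul]
      apply mul_le_mul _ b3 (abs_nonneg _) (by positivity)
      rw [Nat.abs_cast]
      exact_mod_cast a2
    have e2 : |(l.1 : ℤ) * k.2| ≤ J * L := by
      rw [abs_mul]
      apply mul_le_mul _ a3 (abs_nonneg _) (by positivity)
      rw [Nat.abs_cast]
      exact_mod_cast b2
    have e3 := abs_sub (a := (k.1 : ℤ) * l.2) (b := (l.1 : ℤ) * k.2)
    have e4 : ((2 * J * L : ℕ) : ℤ) < p := by exact_mod_cast hp
    push_cast at e4
    linarith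
  have h2 : (k.1 : ℤ) * l.2 = l.1 * k.2 := by linarith
  have h3 : (k.1 : ℤ) ∣ l.1 := by
    have : (k.1 : ℤ) ∣ l.1 * k.2 := ⟨l.2, h2.symm⟩
    exact a4.dvd_of_dvd_mul_right this
  have h4 : (l.1 : ℤ) ∣ k.1 := by
    have : (l.1 : ℤ) ∣ k.1 * l.2 := ⟨k.2, h2⟩
    exact b4.dvd_of_dvd_mul_right this
  have h5 : k.1 = l.1 := Nat.dvd_antisymm (by exact_mod_cast h3) (by exact_mod_cast h4)
  have h6 : k.2 = l.2 := by
    rw [h5] at h2
    have : (l.1 : ℤ) ≠ 0 := by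
      have : 0 < l.1 := by omega
      exact_mod_cast this.ne'
    exact (mul_left_cancel₀ this h2).symm
  exact Prod.ext h5 h6

theorem softS (J K₀ : ℕ) (hJ : 1 ≤ J) : ∃ c : ℝ, 0 < c ∧ ∃ N₀ : ℕ, ∀ N : ℕ, N₀ ≤ N →
    ∀ L : ℕ, 1 ≤ L → (L : ℝ) ≤ (Real.log N) ^ 2 →
    ∀ (A B : Finset ℕ), A ⊆ Icc 1 N → B ⊆ Icc 1 N → ∀ v : ℤ,
    (∀ a ∈ A, ∀ b ∈ B, (N : ℝ) ^ (1 / 200 : ℝ) ≤ |(a : ℝ) + b + v|) →
    ∀ (q : ℕ), q = primorial ⌊Real.log N / 10⌋₊ → ∀ r r' : ℕ,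
    (N : ℝ) / (q * (Real.log N) ^ K₀) ≤ (A.filter (fun a => a % q = r)).card →
    (N : ℝ) / (q * (Real.log N) ^ K₀) ≤ (B.filter (fun a => a % q = r')).card →
    ((UA (Real.log N / 10) J L ((r : ℤ) + r' + v)).card : ℝ) ≤ c * Real.log N →
    ∃ a ∈ A, ∃ b ∈ B, ∀ j ∈ Icc 1 J, ∀ p : ℕ, p.Prime →
      (L : ℝ) < abs ((p : ℝ) - j * |(a : ℝ) + b + v|) := by
  obtain ⟨c, hc, X₁, hcov⟩ := coverD (K₀ + 1)
  obtain ⟨X₂, hev⟩ := ev_soft J
  refine ⟨c, hc, ⌈max X₁ X₂⌉₊, ?_⟩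
  intro N hN L hL1 hL A B hA hB v hv q hq r r' hAr hBr hU
  have hNX : max X₁ X₂ ≤ (N : ℝ) := (Nat.le_ceil _).trans (by exact_mod_cast hN)
  set X : ℝ := (N : ℝ) with hX
  obtain ⟨e1, e2, e3, e4, e5, e6, e7⟩ := hev X ((le_max_right _ _).trans hNX)
  have hX0 : 0 < X := by linarith
  have hl0 : 0 < Real.log X := by linarith
  have hJr : (1:ℝ) ≤ J := by exact_mod_cast hJ
  have hqX : (q : ℝ) ≤ X ^ (1 / 5 : ℝ) := by
    rw [hq]
    refine (primorial_le_rpow e1.le).trans ?_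
    exact Real.rpow_le_rpow_of_exponent_le e1.le (by norm_num)
  have hq0 : 0 < q := by
    rw [hq]
    exact primorial_pos _
  have hqR : (0 : ℝ) < q := by exact_mod_cast hq0
  have hdq : ∀ p : ℕ, p.Prime → (p : ℝ) ≤ Real.log X / 10 → p ∣ q := by
    intro p hp hpy
    rw [hq]
    unfold primorial
    apply dvd_prod_of_mem (fun p => p)
    rw [mem_filter, mem_range]
    have := Nat.le_floor hpy
    exact ⟨by omega, hp⟩
  have hqd : ∀ p : ℕ, p.Prime → p ∣ q → (p : ℝ) ≤ Real.log X / 10 := by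
    intro p hp hd
    rw [hq] at hd
    unfold primorial at hd
    obtain ⟨s, hs, hsd⟩ := (Prime.dvd_finsetProd_iff hp.prime _).mp hd
    rw [mem_filter, mem_range] at hs
    rw [(Nat.prime_dvd_prime_iff_eq hp hs.2).mp hsd]
    have : s ≤ ⌊Real.log X / 10⌋₊ := by omega
    exact (Nat.le_floor_iff (by positivity)).mp this
  set M : ℕ := N / q + 1 with hM
  -- size of M
  have hNq : X ^ (4 / 5 : ℝ) ≤ X / q := by
    rw [le_div_iff₀ hqR]
    calc X ^ (4 / 5 : ℝ) * q ≤ X ^ (4 / 5 : ℝ) * X ^ (1 / 5 : ℝ) :=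
          mul_le_mul_of_nonneg_left hqX (Real.rpow_nonneg hX0.le _)
      _ = X := by rw [← Real.rpow_add hX0]; norm_num
  have hNq1 : 1 ≤ X / q := le_trans (Real.one_le_rpow e1.le (by norm_num)) hNq
  have hM1 : X / q ≤ M := by
    rw [div_le_iff₀ hqR, hM]
    have h := Nat.lt_mul_div_succ N hq0
    have h' : (N : ℝ) < ((q * (N / q + 1) : ℕ) : ℝ) := by exact_mod_cast h
    rw [Nat.cast_mul] at h'
    rw [mul_comm]
    exact h'.le
  have hM2 : (M : ℝ) ≤ 2 * (X / q) := by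
    rw [hM]
    push_cast
    have : ((N / q : ℕ) : ℝ) ≤ (N : ℝ) / q := Nat.cast_div_le
    linarith
  have hMhalf : X ^ (1 / 2 : ℝ) ≤ M := by
    refine le_trans ?_ (hNq.trans hM1)
    exact Real.rpow_le_rpow_of_exponent_le e1.le (by norm_num)
  have hMd : (M : ℝ) / (Real.log X) ^ (K₀ + 1) ≤ X / (q * (Real.log X) ^ K₀) := by
    have h1 : (M : ℝ) / (Real.log X) ^ (K₀ + 1) ≤ 2 * (X / q) / (Real.log X) ^ (K₀ + 1) :=
      div_le_div_of_nonneg_right hM2 (by positivity)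
    refine h1.trans ?_
    rw [pow_succ]
    have h2 : 2 * (X / q) / ((Real.log X) ^ K₀ * Real.log X) =
        (X / (q * (Real.log X) ^ K₀)) * (2 / Real.log X) := by
      field_simp
    rw [h2]
    have h3 : 2 / Real.log X ≤ 1 := by
      rw [div_le_one hl0]
      exact e2
    have h4 : 0 ≤ X / (q * (Real.log X) ^ K₀) := by positivity
    nlinarith
  have hbq : ∀ b ∈ B, b / q + 1 ≤ M := by
    intro b hb
    have h1 := (mem_Icc.mp (hB hb)).2
    rw [hM]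
    exact Nat.add_le_add_right (Nat.div_le_div_right h1) 1
  -- the sets of quotients
  have hT1 : (A.filter (fun a => a % q = r)).image (fun a => a / q + 1) ⊆ Icc 1 M := by
    intro t ht
    obtain ⟨a, ha, rfl⟩ := mem_image.mp ht
    rw [mem_filter] at ha
    have h1 := (mem_Icc.mp (hA ha.1)).2
    rw [mem_Icc, hM]
    exact ⟨Nat.le_add_left 1 _, Nat.add_le_add_right (Nat.div_le_div_right h1) 1⟩
  have hT1' : (B.filter (fun a => a % q = r')).image (fun b => M - b / q) ⊆ Icc 1 M := by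
    intro t ht
    obtain ⟨b, hb, rfl⟩ := mem_image.mp ht
    rw [mem_filter] at hb
    have h1 := hbq b hb.1
    rw [mem_Icc]
    generalize b / q = z at h1 ⊢
    constructor
    · omega
    · omega
  have hT2 : (M : ℝ) / (Real.log X) ^ (K₀ + 1) ≤
      ((A.filter (fun a => a % q = r)).image (fun a => a / q + 1)).card := by
    rw [card_image_of_injOn]
    · exact hMd.trans hAr
    · intro a ha b hb hab
      have h1 := (mem_filter.mp (mem_coe.mp ha)).2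
      have h2 := (mem_filter.mp (mem_coe.mp hb)).2
      simp only at hab
      have h3 : a / q = b / q := by omega
      rw [← Nat.div_add_mod a q, ← Nat.div_add_mod b q, h1, h2, h3]
  have hT2' : (M : ℝ) / (Real.log X) ^ (K₀ + 1) ≤
      ((B.filter (fun a => a % q = r')).image (fun b => M - b / q)).card := by
    rw [card_image_of_injOn]
    · exact hMd.trans hBr
    · intro a ha b hb hab
      have h1 := mem_filter.mp (mem_coe.mp ha)
      have h2 := mem_filter.mp (mem_coe.mp hb)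
      have h4 := hbq a h1.1
      have h5 := hbq b h2.1
      simp only at hab
      have h3 : a / q = b / q := by omega
      rw [← Nat.div_add_mod a q, ← Nat.div_add_mod b q, h1.2, h2.2, h3]
  set m : ℤ := (r : ℤ) + r' + v with hm
  set m' : ℤ := m + q * ((M : ℤ) - 1) with hm'
  set KS : Finset (ℕ × ℤ) := UA (Real.log X / 10) J L m with hKS
  have hKc : ∀ k ∈ KS, 1 ≤ k.1 ∧ k.1 ≤ J ∧ |k.2| ≤ L ∧ IsCoprime (k.1 : ℤ) k.2 :=
    fun k hk => UA_coprime e4 hk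
  -- primes above the logarithm power
  have hbigp : ∀ p : ℕ, p.Prime → (Real.log X) ^ (K₀ + 1 + 4) < p → 2 * J * L < p ∧ J < p ∧
      ¬ p ∣ q := by
    intro p hp hpl
    have h1 : (Real.log X) ^ 3 ≤ (Real.log X) ^ (K₀ + 1 + 4) :=
      pow_le_pow_right₀ (by linarith) (by omega)
    have h2 : 2 * (J : ℝ) * L ≤ (Real.log X) ^ 3 := by
      calc 2 * (J : ℝ) * L ≤ Real.log X * (Real.log X) ^ 2 :=
            mul_le_mul e3.le hL (by positivity) hl0.le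
        _ = _ := by ring
    have h3 : Real.log X ≤ (Real.log X) ^ 3 := by
      calc Real.log X = (Real.log X) ^ 1 := (pow_one _).symm
        _ ≤ _ := pow_le_pow_right₀ (by linarith) (by norm_num)
    refine ⟨?_, ?_, ?_⟩
    · have : ((2 * J * L : ℕ) : ℝ) < p := by
        push_cast
        linarith
      exact_mod_cast this
    · have : (J : ℝ) < p := by linarith
      exact_mod_cast this
    · intro hd
      have := hqd p hp hd
      linarith
  have hnd : ∀ p : ℕ, p.Prime → (Real.log X) ^ (K₀ + 1 + 4) < p → ∀ k ∈ KS,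
      ¬ p ∣ k.1 * q := by
    intro p hp hpl k hk hd
    obtain ⟨h1, h2, h3⟩ := hbigp p hp hpl
    obtain ⟨a1, a2, _, _⟩ := hKc k hk
    rcases (hp.dvd_mul).mp hd with h | h
    · have := Nat.le_of_dvd (by omega) h
      omega
    · exact h3 h
  obtain ⟨t, ht, t', ht', hk⟩ := hcov X ((le_max_left _ _).trans hNX) KS
    (by rw [Fintype.card_coe]; exact hU) (resf q m' KS)
    (by
      intro p hp hpl hpz k l hkl hd
      have h1 := resf_dvd q m' KS p k hp (hnd p hp hpl k.1 k.2)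
      have h2 := resf_dvd q m' KS p l hp (hnd p hp hpl l.1 l.2)
      apply hkl
      apply Subtype.ext
      refine col_inj (hKc k.1 k.2) (hKc l.1 l.2) p (hbigp p hp hpl).1 ?_
      have h3 : (p : ℤ) ∣ (k.1.1 : ℤ) * (((l.1.1 : ℤ) * q) * resf q m' KS p l +
            ((l.1.1 : ℤ) * m' + l.1.2)) -
          (l.1.1 : ℤ) * (((k.1.1 : ℤ) * q) * resf q m' KS p k + ((k.1.1 : ℤ) * m' + k.1.2)) +
          (k.1.1 : ℤ) * l.1.1 * q * (resf q m' KS p k - resf q m' KS p l) :=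
        dvd_add (dvd_sub (Dvd.dvd.mul_left h2 _) (Dvd.dvd.mul_left h1 _)) (Dvd.dvd.mul_left hd _)
      have h4 : (k.1.1 : ℤ) * (((l.1.1 : ℤ) * q) * resf q m' KS p l +
            ((l.1.1 : ℤ) * m' + l.1.2)) -
          (l.1.1 : ℤ) * (((k.1.1 : ℤ) * q) * resf q m' KS p k + ((k.1.1 : ℤ) * m' + k.1.2)) +
          (k.1.1 : ℤ) * l.1.1 * q * (resf q m' KS p k - resf q m' KS p l) =
          (k.1.1 : ℤ) * l.1.2 - l.1.1 * k.1.2 := by ring
      rwa [h4] at h3) M _ _ hMhalf hT1 hT1' hT2 hT2'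
  obtain ⟨a, ha, hat⟩ := mem_image.mp ht
  obtain ⟨b, hb, hbt⟩ := mem_image.mp ht'
  rw [mem_filter] at ha hb
  set d : ℤ := (a : ℤ) + b + v with hd
  have hdm : d = m' + q * ((t : ℤ) - t') := by
    have h1 := Nat.div_add_mod a q
    have h2 := Nat.div_add_mod b q
    rw [ha.2] at h1
    rw [hb.2] at h2
    have h1' : (a : ℤ) = q * ((a / q : ℕ) : ℤ) + r := by exact_mod_cast h1.symm
    have h2' : (b : ℤ) = q * ((b / q : ℕ) : ℤ) + r' := by exact_mod_cast h2.symm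
    have h3 : (t : ℤ) = ((a / q : ℕ) : ℤ) + 1 := by exact_mod_cast hat.symm
    have h4 : (t' : ℤ) = (M : ℤ) - ((b / q : ℕ) : ℤ) := by
      have h5 := hbq b hb.1
      rw [← hbt, Nat.cast_sub (by omega)]
    rw [hd, hm', hm, h3, h4]
    linear_combination h1' + h2'
  -- every shift is covered
  have hC : ∀ j : ℕ, 1 ≤ j → j ≤ J → ∀ h : ℤ, |h| ≤ L → ∃ p : ℕ, p.Prime ∧
      (p : ℝ) ≤ X ^ (1 / 10000 : ℝ) ∧ (p : ℤ) ∣ (j : ℤ) * d + h := by
    intro j hj1 hj2 h hh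
    by_cases h2 : (j, h) ∈ KS
    · obtain ⟨p, hp, hpl, hpz, hpd⟩ := hk ⟨(j, h), h2⟩
      refine ⟨p, hp, hpz, ?_⟩
      have h3 := resf_dvd q m' KS p ⟨(j, h), h2⟩ hp (hnd p hp hpl (j, h) h2)
      have h4 := dvd_add (Dvd.dvd.mul_left hpd ((j : ℤ) * q)) h3
      have h5 : (j : ℤ) * q * ((t : ℤ) - t' - resf q m' KS p ⟨(j, h), h2⟩) +
          (((j : ℤ) * q) * resf q m' KS p ⟨(j, h), h2⟩ + ((j : ℤ) * m' + h)) = (j : ℤ) * d + h := by
        rw [hdm]
        ring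
      rwa [h5] at h4
    · have h3 : ∃ p : ℕ, p.Prime ∧ (p : ℝ) ≤ Real.log X / 10 ∧ (p : ℤ) ∣ (j : ℤ) * m + h := by
        by_contra hcon
        push Not at hcon
        apply h2
        rw [hKS]
        unfold UA
        rw [mem_filter, mem_product, mem_Icc, mem_Icc]
        exact ⟨⟨⟨hj1, hj2⟩, (abs_le.mp hh).1, (abs_le.mp hh).2⟩, fun p hp hpy => hcon p hp hpy⟩
      obtain ⟨p, hp, hpy, hpd⟩ := h3
      refine ⟨p, hp, hpy.trans e5, ?_⟩
      have h4 : (p : ℤ) ∣ (q : ℤ) := by exact_mod_cast hdq p hp hpy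
      have h5 := dvd_add hpd (Dvd.dvd.mul_right h4 ((j : ℤ) * (((M : ℤ) - 1) + ((t : ℤ) - t'))))
      have h6 : (j : ℤ) * m + h + q * ((j : ℤ) * (((M : ℤ) - 1) + ((t : ℤ) - t'))) =
          (j : ℤ) * d + h := by
        rw [hdm, hm']
        ring
      rwa [h6] at h5
  refine ⟨a, ha.1, b, hb.1, ?_⟩
  intro j hj p hp
  rw [mem_Icc] at hj
  have hdR : (d : ℝ) = (a : ℝ) + b + v := by
    rw [hd]
    push_cast
    ring
  have hdbig : X ^ (1 / 200 : ℝ) ≤ |(d : ℝ)| := by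
    rw [hdR]
    exact hv a ha.1 b hb.1
  rw [← hdR]
  by_contra hcon
  push Not at hcon
  obtain ⟨e, he, hed⟩ : ∃ e : ℤ, (e = 1 ∨ e = -1) ∧ |d| = e * d := by
    rcases le_or_gt 0 d with h0 | h0
    · exact ⟨1, Or.inl rfl, by rw [abs_of_nonneg h0, one_mul]⟩
    · exact ⟨-1, Or.inr rfl, by rw [abs_of_neg h0]; ring⟩
  have hedR : |(d : ℝ)| = ((e * d : ℤ) : ℝ) := by rw [← hed, Int.cast_abs]
  have h1 : |(p : ℤ) - j * (e * d)| ≤ L := by
    have : ((|(p : ℤ) - j * (e * d)| : ℤ) : ℝ) ≤ ((L : ℤ) : ℝ) := by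
      rw [Int.cast_abs]
      rw [hedR] at hcon
      push_cast
      push_cast at hcon
      exact hcon
    exact_mod_cast this
  have h2 : |e * ((p : ℤ) - j * (e * d))| ≤ L := by
    rw [abs_mul]
    rcases he with rfl | rfl
    · simpa using h1
    · simpa using h1
  obtain ⟨π, hπ, hπz, hπd⟩ := hC j hj.1 hj.2 _ h2
  have h3 : (j : ℤ) * d + e * ((p : ℤ) - j * (e * d)) = e * p := by
    rcases he with rfl | rfl
    · ring
    · ring
  rw [h3] at hπd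
  have h4 : (π : ℤ) ∣ (p : ℤ) := by
    rcases he with rfl | rfl
    · simpa using hπd
    · simpa using hπd
  have h5 : π = p := (Nat.prime_dvd_prime_iff_eq hπ hp).mp (by exact_mod_cast h4)
  have h7 : (p : ℝ) ≤ X ^ (1 / 10000 : ℝ) := by rw [← h5]; exact hπz
  have h8 := (abs_le.mp hcon).1
  have h9 : |(d : ℝ)| ≤ j * |(d : ℝ)| := by
    have := abs_nonneg (d : ℝ)
    have hjr : (1 : ℝ) ≤ j := by exact_mod_cast hj.1
    nlinarith
  linarith

end Pool.Agent.U642.DT
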