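import Pool.Agent.U642.DT.Conc
import Pool.Agent.U642.DT.SoftS

set_option autoImplicit false
set_option linter.unusedVariables false

/-! # The rigid part for two arbitrary sets (helper642) -/

namespace Pool.Agent.U642.DT

open Finset Filter Pool.Agent.H256R2.SC Pool.Agent.U642.DS

open scoped Classical

/-- primes up to `min y u` -/
noncomputable def Q0 (y u : ℝ) : Finset ℕ :=
  (range (⌊y⌋₊ + 1)).filter (fun p => p.Prime ∧ (p : ℝ) ≤ u)

/-- primes in `(u, y]` -/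
noncomputable def Q1 (y u : ℝ) : Finset ℕ :=
  (range (⌊y⌋₊ + 1)).filter (fun p => p.Prime ∧ ¬ (p : ℝ) ≤ u)

theorem Q_mul (y u : ℝ) : (∏ p ∈ Q0 y u, p) * ∏ p ∈ Q1 y u, p = primorial ⌊y⌋₊ := by
  unfold primorial Q0 Q1
  rw [← filter_filter, ← filter_filter]
  exact prod_filter_mul_prod_filter_not
    ((range (⌊y⌋₊ + 1)).filter Nat.Prime) (fun p : ℕ => (p : ℝ) ≤ u) (fun p => p)

theorem mem_Q0 {y u : ℝ} (hy : 0 ≤ y) {p : ℕ} : p ∈ Q0 y u ↔ p.Prime ∧ (p : ℝ) ≤ y ∧ (p : ℝ) ≤ u := by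
  unfold Q0
  rw [mem_filter, mem_range, Nat.lt_succ_iff, Nat.le_floor_iff hy]
  tauto

theorem mem_Q1 {y u : ℝ} (hy : 0 ≤ y) {p : ℕ} : p ∈ Q1 y u ↔ p.Prime ∧ (p : ℝ) ≤ y ∧ u < (p : ℝ) := by
  unfold Q1
  rw [mem_filter, mem_range, Nat.lt_succ_iff, Nat.le_floor_iff hy, not_le]
  tauto

theorem Q_cop {y u : ℝ} (hy : 0 ≤ y) : Nat.Coprime (∏ p ∈ Q0 y u, p) (∏ p ∈ Q1 y u, p) := by
  apply Nat.Coprime.prod_left
  intro p hp
  apply Nat.Coprime.prod_right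
  intro q hq
  rw [mem_Q0 hy] at hp
  rw [mem_Q1 hy] at hq
  refine (Nat.coprime_primes hp.1 hq.1).mpr ?_
  rintro rfl
  linarith [hp.2.2, hq.2.2]

/-- the colours left by the primes up to `u` at `s₀` and the primes in `(u, y]` outside `S` at `0` -/
noncomputable def HH (y u : ℝ) (S : Finset ℕ) (J L : ℕ) (s₀ : ℤ) : Finset (ℕ × ℤ) :=
  ((Icc 1 J) ×ˢ (Icc (-(L : ℤ)) L)).filter
    (fun k => (∀ p : ℕ, p.Prime → u < (p : ℝ) → (p : ℝ) ≤ y → p ∉ S → ¬ (p : ℤ) ∣ k.2) ∧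
      ∀ p : ℕ, p.Prime → (p : ℝ) ≤ u → ¬ (p : ℤ) ∣ (k.1 : ℤ) * s₀ + k.2)

/-- multiples in a box -/
theorem mult_count (J L : ℕ) (τ : ℤ) (p : ℕ) (hp : 0 < p) (hpL : p ≤ L) :
    ((((Icc 1 J) ×ˢ (Icc (-(L : ℤ)) L)).filter
      (fun k : ℕ × ℤ => (p : ℤ) ∣ (k.1 : ℤ) * τ + k.2)).card : ℝ) ≤ J * (4 * L / p) := by
  have hpZ : (0 : ℤ) < p := by exact_mod_cast hp
  have h1 : ((Icc 1 J) ×ˢ (Icc (-(L : ℤ)) L)).filter
      (fun k : ℕ × ℤ => (p : ℤ) ∣ (k.1 : ℤ) * τ + k.2) ⊆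
      (Icc 1 J).biUnion (fun j => ((Icc (-(L : ℤ)) L).filter
        (fun h => (p : ℤ) ∣ (j : ℤ) * τ + h)).image (fun h => (j, h))) := by
    rintro ⟨j, h⟩ hk
    rw [mem_filter, mem_product] at hk
    rw [mem_biUnion]
    refine ⟨j, hk.1.1, ?_⟩
    rw [mem_image]
    exact ⟨h, mem_filter.mpr ⟨hk.1.2, hk.2⟩, rfl⟩
  have h2 : ∀ j ∈ Icc 1 J, ((((Icc (-(L : ℤ)) L).filter
        (fun h => (p : ℤ) ∣ (j : ℤ) * τ + h)).image (fun h => (j, h))).card : ℝ) ≤ 4 * L / p := by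
    intro j _
    have e1 : (((Icc (-(L : ℤ)) L).filter (fun h => (p : ℤ) ∣ (j : ℤ) * τ + h)).image
        (fun h => (j, h))).card ≤ ((Icc (-(L : ℤ)) L).filter (fun h => (p : ℤ) ∣ (j : ℤ) * τ + h)).card :=
      card_image_le
    have e2 : ((Icc (-(L : ℤ)) L).filter (fun h => (p : ℤ) ∣ (j : ℤ) * τ + h)).card ≤
        (Icc ((-(L : ℤ) + j * τ) / p) ((L + j * τ) / p)).card := by
      apply card_le_card_of_injOn (fun h => ((j : ℤ) * τ + h) / p)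
      · intro h hh
        rw [mem_coe, mem_filter, mem_Icc] at hh
        rw [mem_coe, mem_Icc]
        constructor
        · apply Int.ediv_le_ediv hpZ
          linarith [hh.1.1]
        · apply Int.ediv_le_ediv hpZ
          linarith [hh.1.2]
      · intro h hh h' hh' heq
        rw [mem_coe, mem_filter] at hh hh'
        simp only at heq
        have f1 := Int.ediv_mul_cancel hh.2
        have f2 := Int.ediv_mul_cancel hh'.2
        rw [heq, f2] at f1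
        linarith
    have e3 : (((Icc ((-(L : ℤ) + j * τ) / p) ((L + j * τ) / p)).card : ℕ) : ℝ) ≤ 2 * L / p + 2 := by
      rw [Int.card_Icc]
      have f1 : (((L + j * τ) / p : ℤ) : ℝ) ≤ ((L : ℝ) + j * τ) / p := by
        have := Int.ediv_mul_le (L + j * τ : ℤ) hpZ.ne'
        rw [le_div_iff₀ (by exact_mod_cast hp)]
        exact_mod_cast this
      have f2 : (-(L : ℝ) + j * τ) / p - 1 ≤ (((-(L : ℤ) + j * τ) / p : ℤ) : ℝ) := by
        have := Int.lt_ediv_add_one_mul_self (-(L : ℤ) + j * τ) hpZ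
        have h3 : (-(L : ℝ) + j * τ) < ((((-(L : ℤ) + j * τ) / p : ℤ) : ℝ) + 1) * p := by
          exact_mod_cast this
        rw [← div_lt_iff₀ (by exact_mod_cast hp)] at h3
        linarith
      have f3 : (((((L + j * τ) / p : ℤ) + 1 - ((-(L : ℤ) + j * τ) / p : ℤ)).toNat : ℕ) : ℝ) =
          ((max (((L + j * τ) / p : ℤ) + 1 - ((-(L : ℤ) + j * τ) / p : ℤ)) 0 : ℤ) : ℝ) := by
        have := Int.toNat_eq_max (((L + j * τ) / p : ℤ) + 1 - ((-(L : ℤ) + j * τ) / p : ℤ))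
        exact_mod_cast congrArg (fun z : ℤ => (z : ℝ)) this
      rw [f3]
      push_cast
      apply max_le
      · have f4 : ((L : ℝ) + j * τ) / p - (-(L : ℝ) + j * τ) / p = 2 * L / p := by
          rw [← sub_div]
          congr 1
          ring
        push_cast at f1 f2
        linarith
      · positivity
    have e4 : (2 : ℝ) ≤ 2 * L / p := by
      rw [le_div_iff₀ (by exact_mod_cast hp)]
      have : (p : ℝ) ≤ L := by exact_mod_cast hpL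
      linarith
    have e5 : (((((Icc (-(L : ℤ)) L).filter (fun h => (p : ℤ) ∣ (j : ℤ) * τ + h)).image
        (fun h => (j, h))).card : ℕ) : ℝ) ≤
        (((Icc ((-(L : ℤ) + j * τ) / p) ((L + j * τ) / p)).card : ℕ) : ℝ) :=
      Nat.cast_le.mpr (e1.trans e2)
    have e6 : 4 * (L : ℝ) / p = 2 * L / p + 2 * L / p := by ring
    linarith
  have h3 := (Nat.cast_le (α := ℝ)).mpr ((card_le_card h1).trans card_biUnion_le)
  refine h3.trans ?_
  push_cast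
  refine (sum_le_sum h2).trans (le_of_eq ?_)
  rw [sum_const, Nat.card_Icc, Nat.add_sub_cancel, nsmul_eq_mul]

/-- a good class modulo the primes of `S` -/
theorem target (S : Finset ℕ) (hS : ∀ p ∈ S, p.Prime) (K : Finset (ℕ × ℤ))
    (hK : ∀ k ∈ K, ∀ p ∈ S, ¬ p ∣ k.1) : ∃ m : ℤ,
    ((UU S K m).card : ℝ) ≤ K.card * ∏ p ∈ S, (1 - 1 / (p : ℝ)) := by
  have h1 : 0 < ∏ p ∈ S, p := prod_pos fun p hp => (hS p hp).pos
  obtain ⟨s, _, s', _, hss⟩ := avgI S hS K hK (range (∏ p ∈ S, p)) (Subset.refl _)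
    (nonempty_range_iff.mpr h1.ne')
  refine ⟨(s : ℤ) - s', ?_⟩
  rw [card_range] at hss
  have h1R : (0 : ℝ) < (∏ p ∈ S, p : ℕ) := by exact_mod_cast h1
  have e1 : ∏ p ∈ S, ((p : ℝ) - 1) = (∏ p ∈ S, p : ℕ) * ∏ p ∈ S, (1 - 1 / (p : ℝ)) := by
    push_cast
    rw [← prod_mul_distrib]
    apply prod_congr rfl
    intro p hp
    have : (p : ℝ) ≠ 0 := by exact_mod_cast (hS p hp).ne_zero
    field_simp
  rw [e1] at hss
  have h2 : ((UU S K ((s : ℤ) - s')).card : ℝ) * (∏ p ∈ S, p : ℕ) ≤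
      (K.card * ∏ p ∈ S, (1 - 1 / (p : ℝ))) * (∏ p ∈ S, p : ℕ) := by
    refine hss.trans (le_of_eq ?_)
    ring
  exact le_of_mul_le_mul_right h2 h1R

/-- a class equal to `m` modulo the primes of `S` and to `0` modulo the primes of `M` -/
theorem crt_target (S M : Finset ℕ) (hS : ∀ p ∈ S, p.Prime) (hM : ∀ p ∈ M, p.Prime)
    (hd : Disjoint S M) (m : ℤ) : ∃ τ : ℤ, (∀ p ∈ S, (p : ℤ) ∣ τ - m) ∧ ∀ p ∈ M, (p : ℤ) ∣ τ := by
  have hc : Nat.Coprime (∏ p ∈ M, p) (∏ p ∈ S, p) := by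
    apply Nat.Coprime.prod_left
    intro p hp
    apply Nat.Coprime.prod_right
    intro q hq
    refine (Nat.coprime_primes (hM p hp) (hS q hq)).mpr ?_
    rintro rfl
    exact (Finset.disjoint_left.mp hd hq) hp
  obtain ⟨a, b, hab⟩ := Nat.isCoprime_iff_coprime.mpr hc
  refine ⟨m * (a * (∏ p ∈ M, p : ℕ)), ?_, ?_⟩
  · intro p hp
    have h1 : (p : ℤ) ∣ ((∏ p ∈ S, p : ℕ) : ℤ) := by
      have : p ∣ ∏ p ∈ S, p := dvd_prod_of_mem (fun p => p) hp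
      exact_mod_cast this
    have h2 : m * (a * (∏ p ∈ M, p : ℕ)) - m = ((∏ p ∈ S, p : ℕ) : ℤ) * (-(m * b)) := by
      linear_combination m * hab
    rw [h2]
    exact Dvd.dvd.mul_right h1 _
  · intro p hp
    have h1 : (p : ℤ) ∣ ((∏ p ∈ M, p : ℕ) : ℤ) := by
      have : p ∣ ∏ p ∈ M, p := dvd_prod_of_mem (fun p => p) hp
      exact_mod_cast this
    exact Dvd.dvd.mul_left (Dvd.dvd.mul_left h1 _) _

theorem dvd_lin {p j : ℕ} {m m' h : ℤ} (hm : (p : ℤ) ∣ m - m') (hd : (p : ℤ) ∣ (j : ℤ) * m' + h) :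
    (p : ℤ) ∣ (j : ℤ) * m + h := by
  have e : (j : ℤ) * m + h = ((j : ℤ) * m' + h) + j * (m - m') := by ring
  rw [e]
  exact dvd_add hd (Dvd.dvd.mul_left hm _)

/-- the uncovered colours -/
theorem UA_count {y u : ℝ} (hy : 0 ≤ y) (huy : u ≤ y) (S : Finset ℕ)
    (hS : ∀ p ∈ S, p.Prime ∧ u < (p : ℝ) ∧ (p : ℝ) ≤ y) (J L : ℕ) (hyL : y ≤ L)
    (s₀ mS τ m : ℤ) (hτS : ∀ p ∈ S, (p : ℤ) ∣ τ - mS) (hτM : ∀ p ∈ Q1 y u \ S, (p : ℤ) ∣ τ)
    (hm0 : ∀ p ∈ Q0 y u, (p : ℤ) ∣ m - s₀) :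
    ((UA y J L m).card : ℝ) ≤ (UU S (HH y u S J L s₀) mS).card +
      4 * J * L * ∑ p ∈ (Q1 y u).filter (fun p : ℕ => ¬ (p : ℤ) ∣ m - τ), 1 / (p : ℝ) := by
  set E : Finset ℕ := (Q1 y u).filter (fun p : ℕ => ¬ (p : ℤ) ∣ m - τ) with hE
  have hEmem : ∀ p ∈ E, p.Prime ∧ (p : ℝ) ≤ y := by
    intro p hp
    rw [hE, mem_filter, mem_Q1 hy] at hp
    exact ⟨hp.1.1, hp.1.2.1⟩
  have h1 : UA y J L m ⊆ UU S (HH y u S J L s₀) mS ∪ E.biUnion (fun p =>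
      ((Icc 1 J) ×ˢ (Icc (-(L : ℤ)) L)).filter (fun k : ℕ × ℤ => (p : ℤ) ∣ (k.1 : ℤ) * τ + k.2)) := by
    intro k hk
    unfold UA at hk
    rw [mem_filter] at hk
    obtain ⟨hkb, hk2⟩ := hk
    rw [mem_union]
    by_cases hex : ∃ p ∈ E, (p : ℤ) ∣ (k.1 : ℤ) * τ + k.2
    · right
      obtain ⟨p, hp, hpd⟩ := hex
      rw [mem_biUnion]
      exact ⟨p, hp, mem_filter.mpr ⟨hkb, hpd⟩⟩
    · left
      push Not at hex
      unfold UU HH
      rw [mem_filter, mem_filter]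
      refine ⟨⟨hkb, ?_, ?_⟩, ?_⟩
      · intro p hp hup hpy hpS hd
        have hmem : p ∈ Q1 y u := (mem_Q1 hy).mpr ⟨hp, hpy, hup⟩
        have hτ := hτM p (mem_sdiff.mpr ⟨hmem, hpS⟩)
        by_cases hpE : p ∈ E
        · exact hex p hpE (dvd_add (Dvd.dvd.mul_left hτ _) hd)
        · have h3 : (p : ℤ) ∣ m - τ := by
            by_contra h4
            exact hpE (mem_filter.mpr ⟨hmem, h4⟩)
          exact hk2 p hp hpy (dvd_lin h3 (dvd_add (Dvd.dvd.mul_left hτ _) hd))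
      · intro p hp hpu hd
        have hmem : p ∈ Q0 y u := (mem_Q0 hy).mpr ⟨hp, hpu.trans huy, hpu⟩
        exact hk2 p hp (hpu.trans huy) (dvd_lin (hm0 p hmem) hd)
      · intro p hpS hd
        obtain ⟨hp, hup, hpy⟩ := hS p hpS
        have hmem : p ∈ Q1 y u := (mem_Q1 hy).mpr ⟨hp, hpy, hup⟩
        have hd' : (p : ℤ) ∣ (k.1 : ℤ) * τ + k.2 := dvd_lin (hτS p hpS) hd
        by_cases hpE : p ∈ E
        · exact hex p hpE hd'
        · have h3 : (p : ℤ) ∣ m - τ := by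
            by_contra h4
            exact hpE (mem_filter.mpr ⟨hmem, h4⟩)
          exact hk2 p hp hpy (dvd_lin h3 hd')
  have h2 := (Nat.cast_le (α := ℝ)).mpr ((card_le_card h1).trans (card_union_le _ _))
  rw [Nat.cast_add] at h2
  refine h2.trans ?_
  apply add_le_add le_rfl
  refine ((Nat.cast_le (α := ℝ)).mpr card_biUnion_le).trans ?_
  push_cast
  rw [mul_sum]
  apply sum_le_sum
  intro p hp
  obtain ⟨h3, h4⟩ := hEmem p hp
  have h5 : p ≤ L := by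
    have : (p : ℝ) ≤ L := h4.trans hyL
    exact_mod_cast this
  refine (mult_count J L τ p h3.pos h5).trans (le_of_eq ?_)
  ring

end Pool.Agent.U642.DT
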