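import Mathlib
import Pool.Agent.H318R2.Cr.Prod

set_option autoImplicit false
set_option linter.unusedVariables false

/-! # Sums of completely multiplicative functions (helper642) -/

namespace Pool.Agent.U642.DT

open Finset Pool.Agent.H318R2.Cr

open scoped Classical

/-- the completely multiplicative function with the values `F p` at the primes -/
noncomputable def mulF (F : ℕ → ℝ) : ℕ →* ℝ where
  toFun n := if n = 0 then 0 else n.factorization.prod (fun p k => F p ^ k)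
  map_one' := by simp
  map_mul' a b := by
    by_cases ha : a = 0
    · simp [ha]
    by_cases hb : b = 0
    · simp [hb]
    rw [if_neg ha, if_neg hb, if_neg (mul_ne_zero ha hb), Nat.factorization_mul ha hb]
    exact Finsupp.prod_add_index' (fun p => pow_zero _) (fun p k l => pow_add _ _ _)

theorem mulF_apply (F : ℕ → ℝ) (n : ℕ) (hn : n ≠ 0) :
    mulF F n = ∏ p ∈ n.primeFactors, F p ^ n.factorization p := by
  have h : mulF F n = if n = 0 then 0 else n.factorization.prod (fun p k => F p ^ k) := rfl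
  rw [h, if_neg hn]
  rfl

theorem mulF_prime (F : ℕ → ℝ) (p : ℕ) (hp : p.Prime) : mulF F p = F p := by
  rw [mulF_apply F p hp.ne_zero, hp.primeFactors, prod_singleton, hp.factorization_self, pow_one]

theorem mulF_nonneg (F : ℕ → ℝ) (h : ∀ p : ℕ, p.Prime → 0 ≤ F p) (n : ℕ) : 0 ≤ mulF F n := by
  by_cases hn : n = 0
  · have h : mulF F n = if n = 0 then 0 else n.factorization.prod (fun p k => F p ^ k) := rfl
    rw [h, if_pos hn]
  · rw [mulF_apply F n hn]
    exact prod_nonneg fun p hp => pow_nonneg (h p (Nat.prime_of_mem_primeFactors hp)) _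

theorem mulF_sum (F : ℕ → ℝ) (h0 : ∀ p : ℕ, p.Prime → 0 ≤ F p) (h1 : ∀ p : ℕ, p.Prime → F p < 1)
    (M : ℕ) : ∑ n ∈ Icc 1 M, mulF F n ≤ ∏ p ∈ Pz M, (1 - F p)⁻¹ := by
  have h := EulerProduct.summable_and_hasSum_factoredNumbers_prod_filter_prime_geometric
    (f := mulF F) (by
      intro p hp
      rw [mulF_prime F p hp, Real.norm_of_nonneg (h0 p hp)]
      exact h1 p hp) (Ioc 0 M)
  have h2 := h.2
  have e1 : (∏ p ∈ (Ioc 0 M) with p.Prime, (1 - (mulF F) p)⁻¹) = ∏ p ∈ Pz M, (1 - F p)⁻¹ := by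
    apply prod_congr rfl
    intro p hp
    rw [mulF_prime F p (mem_filter.mp hp).2]
  rw [e1] at h2
  have hmem : ∀ n ∈ Icc 1 M, n ∈ Nat.factoredNumbers (Ioc 0 M) := by
    intro n hn
    rw [mem_Icc] at hn
    rw [Nat.mem_factoredNumbers]
    refine ⟨by omega, fun p hp => ?_⟩
    have hpp := Nat.prime_of_mem_primeFactorsList hp
    rw [mem_Ioc]
    exact ⟨hpp.pos, (Nat.le_of_dvd (by omega) (Nat.dvd_of_mem_primeFactorsList hp)).trans hn.2⟩
  have h3 := sum_le_hasSum ((Icc 1 M).attach.image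
    (fun n => (⟨n.1, hmem n.1 n.2⟩ : Nat.factoredNumbers (Ioc 0 M))))
    (fun i _ => mulF_nonneg F h0 i.1) h2
  rw [sum_image (by
    intro a _ b _ hab
    have := congrArg Subtype.val hab
    exact Subtype.ext this)] at h3
  refine le_trans (le_of_eq ?_) h3
  rw [← sum_attach]

theorem mulF_eq (F : ℕ → ℝ) (Q : Finset ℕ) (hQ : ∀ p ∈ Q, p.Prime)
    (hF : ∀ p : ℕ, p.Prime → p ∉ Q → F p = 1 / p) (n : ℕ) (hn : n ≠ 0) :
    (n : ℝ) * mulF F n = ∏ p ∈ Q, ((p : ℝ) * F p) ^ n.factorization p := by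
  have e0 : (n : ℝ) = ∏ p ∈ n.primeFactors, (p : ℝ) ^ n.factorization p := by
    have := Nat.factorization_prod_pow_eq_self hn
    conv_lhs => rw [← this]
    rw [Finsupp.prod]
    push_cast
    rfl
  rw [mulF_apply F n hn]
  conv_lhs => rw [e0]
  rw [← prod_mul_distrib]
  have e1 : ∏ p ∈ n.primeFactors, ((p : ℝ) ^ n.factorization p * F p ^ n.factorization p) =
      ∏ p ∈ (n.primeFactors ∪ Q : Finset ℕ), ((p : ℝ) * F p) ^ n.factorization p := by
    rw [prod_congr rfl fun (p : ℕ) _ => (mul_pow (p : ℝ) (F p) (n.factorization p)).symm]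
    apply prod_subset subset_union_left
    intro p _ hp
    rw [← Nat.support_factorization, Finsupp.notMem_support_iff] at hp
    rw [hp, pow_zero]
  rw [e1]
  symm
  apply prod_subset subset_union_right
  intro p hp hpQ
  have hpp : p.Prime := by
    rcases mem_union.mp hp with h | h
    · exact Nat.prime_of_mem_primeFactors h
    · exact hQ p h
  have : (p : ℝ) ≠ 0 := by exact_mod_cast hpp.ne_zero
  rw [hF p hpp hpQ, mul_one_div, div_self this, one_pow]

/-- odd primes up to `w` -/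
def QQ (w : ℕ) : Finset ℕ := (Icc 3 w).filter Nat.Prime

theorem mem_QQ {w p : ℕ} : p ∈ QQ w ↔ 3 ≤ p ∧ p ≤ w ∧ p.Prime := by
  unfold QQ
  rw [mem_filter, mem_Icc]
  tauto

/-- the value at a prime -/
noncomputable def Fv (w : ℕ) (e : ℤ) (p : ℕ) : ℝ :=
  if p ∈ QQ w then (if (p : ℤ) ∣ e then 0 else ((p : ℝ) - 1) / (p * (p - 2))) else 1 / p

noncomputable def bv (e : ℤ) (p : ℕ) : ℝ := if (p : ℤ) ∣ e then 1 else ((p : ℝ) - 2) / (p - 1)

theorem Fv_bounds (w : ℕ) (e : ℤ) (p : ℕ) (hp : p.Prime) : 0 ≤ Fv w e p ∧ Fv w e p < 1 := by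
  unfold Fv
  have hp2 : (2 : ℝ) ≤ p := by exact_mod_cast hp.two_le
  split_ifs with h1 h2
  · exact ⟨le_rfl, one_pos⟩
  · have h3 : (3 : ℝ) ≤ p := by exact_mod_cast (mem_QQ.mp h1).1
    have h4 : (0 : ℝ) < p * (p - 2) := mul_pos (by linarith) (by linarith)
    refine ⟨div_nonneg (by linarith) h4.le, ?_⟩
    rw [div_lt_one h4]
    nlinarith
  · refine ⟨by positivity, ?_⟩
    rw [div_lt_one (by linarith)]
    linarith

/-- the local factors of the sieve -/
theorem local_bound (w : ℕ) (e : ℤ) (p : ℕ) (hp : p ∈ QQ w) (n : ℕ) (hn : n ≠ 0) (g : ℝ) (hg1 : g ≤ 1)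
    (hg0 : (p : ℤ) ∣ e → p ∣ n → g = 0)
    (hg2 : ¬ (p : ℤ) ∣ e → ¬ p ∣ n → g ≤ ((p : ℝ) - 2) / (p - 1)) :
    g ≤ bv e p * ((p : ℝ) * Fv w e p) ^ n.factorization p := by
  have hpp := (mem_QQ.mp hp).2.2
  have h3 : (3 : ℝ) ≤ p := by exact_mod_cast (mem_QQ.mp hp).1
  unfold bv Fv
  rw [if_pos hp]
  by_cases he : (p : ℤ) ∣ e
  · rw [if_pos he, if_pos he]
    by_cases hd : p ∣ n
    · have hk : n.factorization p ≠ 0 := by
        have := (hpp.dvd_iff_one_le_factorization hn).mp hd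
        omega
      rw [mul_zero, zero_pow hk, mul_zero, hg0 he hd]
    · rw [Nat.factorization_eq_zero_of_not_dvd hd, pow_zero, mul_one]
      exact hg1
  · rw [if_neg he, if_neg he]
    have hpos : (0 : ℝ) < p - 2 := by linarith
    have hpos1 : (0 : ℝ) < p - 1 := by linarith
    have hpos0 : (0 : ℝ) < p := by linarith
    by_cases hd : p ∣ n
    · have hk : 1 ≤ n.factorization p := (hpp.dvd_iff_one_le_factorization hn).mp hd
      have e1 : (p : ℝ) * (((p : ℝ) - 1) / (p * (p - 2))) = (p - 1) / (p - 2) := by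
        field_simp
      rw [e1]
      have e2 : (1 : ℝ) ≤ (p - 1) / (p - 2) := by
        rw [le_div_iff₀ hpos]
        linarith
      have e3 : ((p : ℝ) - 1) / (p - 2) ≤ (((p : ℝ) - 1) / (p - 2)) ^ n.factorization p := by
        calc ((p : ℝ) - 1) / (p - 2) = (((p : ℝ) - 1) / (p - 2)) ^ 1 := (pow_one _).symm
          _ ≤ _ := pow_le_pow_right₀ e2 hk
      refine hg1.trans ?_
      calc (1 : ℝ) = ((p : ℝ) - 2) / (p - 1) * ((p - 1) / (p - 2)) := by field_simp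
        _ ≤ _ := mul_le_mul_of_nonneg_left e3 (by positivity)
    · rw [Nat.factorization_eq_zero_of_not_dvd hd, pow_zero, mul_one]
      exact hg2 he hd

theorem ratio_bound (w : ℕ) (e : ℤ) (p : ℕ) (hp : p ∈ QQ w) :
    0 ≤ bv e p * (1 - Fv w e p)⁻¹ ∧
    bv e p * (1 - Fv w e p)⁻¹ ≤ Real.exp (2 * (((p - 1 : ℕ) : ℝ) ^ 2)⁻¹) := by
  have hpp := (mem_QQ.mp hp).2.2
  have h3 : (3 : ℝ) ≤ p := by exact_mod_cast (mem_QQ.mp hp).1
  have h3' := (mem_QQ.mp hp).1
  have hc : ((p - 1 : ℕ) : ℝ) = (p : ℝ) - 1 := by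
    rw [Nat.cast_sub (by omega), Nat.cast_one]
  rw [hc]
  have hb := Fv_bounds w e p hpp
  have hb0 : 0 < 1 - Fv w e p := by linarith [hb.2]
  have hbv : 0 ≤ bv e p := by
    unfold bv
    split_ifs
    · norm_num
    · exact div_nonneg (by linarith) (by linarith)
  refine ⟨mul_nonneg hbv (inv_nonneg.mpr hb0.le), ?_⟩
  have hexp := Real.add_one_le_exp (2 * (((p : ℝ) - 1) ^ 2)⁻¹)
  refine le_trans ?_ hexp
  unfold bv Fv
  rw [if_pos hp]
  by_cases he : (p : ℤ) ∣ e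
  · rw [if_pos he, if_pos he]
    have : (0 : ℝ) ≤ 2 * (((p : ℝ) - 1) ^ 2)⁻¹ := by positivity
    simp only [sub_zero, inv_one, mul_one]
    linarith
  · rw [if_neg he, if_neg he]
    have hpos : (0 : ℝ) < p - 2 := by linarith
    have hpos1 : (0 : ℝ) < p - 1 := by linarith
    have hpos0 : (0 : ℝ) < p := by linarith
    have hq : (0 : ℝ) < p ^ 2 - 3 * p + 1 := by nlinarith
    have e1 : 1 - ((p : ℝ) - 1) / (p * (p - 2)) = (p ^ 2 - 3 * p + 1) / (p * (p - 2)) := by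
      field_simp
      ring
    rw [e1, inv_div, div_mul_div_comm, div_le_iff₀ (by positivity)]
    have e2 : (2 * (((p : ℝ) - 1) ^ 2)⁻¹ + 1) * (((p : ℝ) - 1) * ((p : ℝ) ^ 2 - 3 * p + 1)) =
        (((p : ℝ) ^ 2 - 3 * p + 1) * (2 + ((p : ℝ) - 1) ^ 2)) / ((p : ℝ) - 1) := by
      field_simp
    rw [e2, le_div_iff₀ hpos1]
    nlinarith [mul_pos hpos hpos1]

/-- the weighted sum -/
theorem weight_sum (w M : ℕ) (hw : 3 ≤ w) (hwM : w ≤ M) (e : ℤ) (g : ℕ → ℕ → ℝ)
    (hg0 : ∀ n p, 0 ≤ g n p) (hg1 : ∀ n p, p ∈ QQ w → g n p ≤ 1)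
    (hgz : ∀ n p, p ∈ QQ w → (p : ℤ) ∣ e → p ∣ n → g n p = 0)
    (hg2 : ∀ n p, p ∈ QQ w → ¬ (p : ℤ) ∣ e → ¬ p ∣ n → g n p ≤ ((p : ℝ) - 2) / (p - 1)) :
    ∑ n ∈ Icc 1 M, 1 / (n : ℝ) * ∏ p ∈ QQ w, g n p ≤ 2 * Real.exp 2 * (V w / V M) := by
  have hQp : ∀ p ∈ QQ w, p.Prime := fun p hp => (mem_QQ.mp hp).2.2
  have h1 : ∀ n ∈ Icc 1 M, 1 / (n : ℝ) * ∏ p ∈ QQ w, g n p ≤
      (∏ p ∈ QQ w, bv e p) * mulF (Fv w e) n := by
    intro n hn
    rw [mem_Icc] at hn
    have hn0 : n ≠ 0 := by omega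
    have hnR : (0 : ℝ) < n := by exact_mod_cast (by omega : 0 < n)
    have h2 := mulF_eq (Fv w e) (QQ w) hQp (fun p _ hpQ => by unfold Fv; rw [if_neg hpQ]) n hn0
    have h3 : mulF (Fv w e) n = 1 / (n : ℝ) *
        ∏ p ∈ QQ w, ((p : ℝ) * Fv w e p) ^ n.factorization p := by
      rw [← h2]
      field_simp
    rw [h3]
    have h4 : (∏ p ∈ QQ w, bv e p) * (1 / (n : ℝ) *
        ∏ p ∈ QQ w, ((p : ℝ) * Fv w e p) ^ n.factorization p) =
        1 / (n : ℝ) * ∏ p ∈ QQ w, (bv e p * ((p : ℝ) * Fv w e p) ^ n.factorization p) := by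
      rw [prod_mul_distrib]
      ring
    rw [h4]
    apply mul_le_mul_of_nonneg_left _ (by positivity)
    apply prod_le_prod (fun p _ => hg0 n p)
    intro p hp
    exact local_bound w e p hp n hn0 _ (hg1 n p hp) (hgz n p hp) (hg2 n p hp)
  refine (sum_le_sum h1).trans ?_
  rw [← mul_sum]
  have hbv0 : 0 ≤ ∏ p ∈ QQ w, bv e p := by
    apply prod_nonneg
    intro p hp
    have h3 : (3 : ℝ) ≤ p := by exact_mod_cast (mem_QQ.mp hp).1
    unfold bv
    split_ifs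
    · norm_num
    · exact div_nonneg (by linarith) (by linarith)
  have h2 := mulF_sum (Fv w e) (fun p hp => (Fv_bounds w e p hp).1)
    (fun p hp => (Fv_bounds w e p hp).2) M
  refine (mul_le_mul_of_nonneg_left h2 hbv0).trans ?_
  -- splitting of the product
  have hsub : QQ w ⊆ Pz M := by
    intro p hp
    have := mem_QQ.mp hp
    rw [mem_Pz]
    exact ⟨this.2.2, this.2.1.trans hwM⟩
  have h3 : ∏ p ∈ Pz M, (1 - Fv w e p)⁻¹ =
      (∏ p ∈ QQ w, (1 - Fv w e p)⁻¹) * ∏ p ∈ Pz M \ QQ w, (1 - 1 / (p : ℝ))⁻¹ := by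
    rw [← prod_sdiff hsub, mul_comm]
    congr 1
    apply prod_congr rfl
    intro p hp
    unfold Fv
    rw [if_neg (mem_sdiff.mp hp).2]
  have h4 : V M = (∏ p ∈ Pz M \ QQ w, (1 - 1 / (p : ℝ))) * ∏ p ∈ QQ w, (1 - 1 / (p : ℝ)) := by
    unfold V
    rw [prod_sdiff hsub]
  have h5 : ∏ p ∈ QQ w, (1 - 1 / (p : ℝ)) = 2 * V w := by
    have e1 : Pz w = insert 2 (QQ w) := by
      ext p
      rw [mem_insert, mem_Pz, mem_QQ]
      constructor
      · rintro ⟨hp, hpw⟩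
        rcases Nat.eq_or_lt_of_le hp.two_le with h | h
        · exact Or.inl h.symm
        · exact Or.inr ⟨h, hpw, hp⟩
      · rintro (rfl | ⟨_, h2, h3⟩)
        · exact ⟨Nat.prime_two, by omega⟩
        · exact ⟨h3, h2⟩
    unfold V
    rw [e1, prod_insert (by rw [mem_QQ]; omega)]
    have e2 : 1 - 1 / ((2 : ℕ) : ℝ) = 1 / 2 := by norm_num
    rw [e2]
    ring
  have hVM := V_pos M
  have h6 : ∏ p ∈ Pz M \ QQ w, (1 - 1 / (p : ℝ))⁻¹ = 2 * V w / V M := by
    rw [prod_inv_distrib, eq_div_iff hVM.ne', h4, h5]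
    have hne : ∏ p ∈ Pz M \ QQ w, (1 - 1 / (p : ℝ)) ≠ 0 := by
      intro h0
      rw [h4, h0, zero_mul] at hVM
      exact lt_irrefl _ hVM
    field_simp
  rw [h3, h6]
  have h7 : (∏ p ∈ QQ w, bv e p) * ((∏ p ∈ QQ w, (1 - Fv w e p)⁻¹) * (2 * V w / V M)) =
      (∏ p ∈ QQ w, (bv e p * (1 - Fv w e p)⁻¹)) * (2 * (V w / V M)) := by
    rw [prod_mul_distrib]
    ring
  rw [h7]
  have h8 : ∏ p ∈ QQ w, (bv e p * (1 - Fv w e p)⁻¹) ≤ Real.exp 2 := by
    calc ∏ p ∈ QQ w, (bv e p * (1 - Fv w e p)⁻¹)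
        ≤ ∏ p ∈ QQ w, Real.exp (2 * (((p - 1 : ℕ) : ℝ) ^ 2)⁻¹) :=
          prod_le_prod (fun p hp => (ratio_bound w e p hp).1) fun p hp => (ratio_bound w e p hp).2
      _ = Real.exp (∑ p ∈ QQ w, 2 * (((p - 1 : ℕ) : ℝ) ^ 2)⁻¹) := (Real.exp_sum _ _).symm
      _ ≤ Real.exp 2 := by
          apply Real.exp_le_exp.mpr
          rw [← mul_sum]
          have e1 : ∑ p ∈ QQ w, (((p - 1 : ℕ) : ℝ) ^ 2)⁻¹ ≤ ∑ i ∈ Ioc 1 w, ((i : ℝ) ^ 2)⁻¹ := by
            rw [← sum_image (f := fun i : ℕ => ((i : ℝ) ^ 2)⁻¹) (g := fun p : ℕ => p - 1) (s := QQ w)]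
            · apply sum_le_sum_of_subset_of_nonneg
              · intro i hi
                obtain ⟨p, hp, rfl⟩ := mem_image.mp hi
                have := mem_QQ.mp hp
                rw [mem_Ioc]
                omega
              · intro _ _ _
                positivity
            · intro a ha b hb hab
              have h1 := mem_QQ.mp (mem_coe.mp ha)
              have h2 := mem_QQ.mp (mem_coe.mp hb)
              simp only at hab
              omega
          have e2 := sum_Ioc_inv_sq_le_sub (α := ℝ) (k := 1) (n := w) (by norm_num) (by omega)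
          have e3 : (0 : ℝ) ≤ ((w : ℕ) : ℝ)⁻¹ := by positivity
          norm_num at e2
          linarith
  have hVw := V_pos w
  calc (∏ p ∈ QQ w, (bv e p * (1 - Fv w e p)⁻¹)) * (2 * (V w / V M))
      ≤ Real.exp 2 * (2 * (V w / V M)) := mul_le_mul_of_nonneg_right h8 (by positivity)
    _ = _ := by ring

end Pool.Agent.U642.DT
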