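import Pool.Agent.U642.DT.Mul
import Pool.Agent.U642.DT.Conc
import Pool.Agent.U642.DS.Avg2
import Pool.Agent.H692R2.USS.T1

set_option autoImplicit false
set_option linter.unusedVariables false

/-! # A sieve bound for products of a small integer and a large prime (helper642) -/

namespace Pool.Agent.U642.DT

open Finset Filter Pool.Agent.H318R2.Cr Pool.Agent.U642.DS

open scoped Classical

/-- number of the admissible nonzero classes -/
noncomputable def nu (e : ℤ) (m p : ℕ) : ℕ :=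
  ((range p).filter (fun c : ℕ => c ≠ 0 ∧ ¬ (p : ℤ) ∣ e + m * c)).card

noncomputable def gl (e : ℤ) (m p : ℕ) : ℝ := (nu e m p : ℝ) / ((p : ℝ) - 1)

theorem nu_le (e : ℤ) (m p : ℕ) (hp : 1 ≤ p) : (nu e m p : ℝ) ≤ (p : ℝ) - 1 := by
  have h1 : (range p).filter (fun c : ℕ => c ≠ 0 ∧ ¬ (p : ℤ) ∣ e + m * c) ⊆ (range p).erase 0 := by
    intro c hc
    rw [mem_filter] at hc
    exact mem_erase.mpr ⟨hc.2.1, hc.1⟩
  have h2 := card_le_card h1
  rw [card_erase_of_mem (mem_range.mpr (by omega)), card_range] at h2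
  have h3 : ((nu e m p : ℕ) : ℝ) ≤ ((p - 1 : ℕ) : ℝ) := Nat.cast_le.mpr h2
  rwa [Nat.cast_sub hp, Nat.cast_one] at h3

theorem nu_zero (e : ℤ) (m p : ℕ) (he : (p : ℤ) ∣ e) (hm : p ∣ m) : nu e m p = 0 := by
  unfold nu
  rw [card_eq_zero, filter_eq_empty_iff]
  intro c _ hc
  apply hc.2
  apply dvd_add he
  apply Dvd.dvd.mul_right
  exact_mod_cast hm

theorem nu_two (e : ℤ) (m p : ℕ) (hp : p.Prime) (he : ¬ (p : ℤ) ∣ e) (hm : ¬ p ∣ m) :
    (nu e m p : ℝ) ≤ (p : ℝ) - 2 := by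
  obtain ⟨r, hr, hrd⟩ := exists_root p hp m 0 (-e) hm
  have hrd' : (p : ℤ) ∣ e + m * r := by
    have : (m : ℤ) * (((0 : ℕ) : ℤ) - (r : ℕ)) + -e = -(e + m * r) := by
      push_cast
      ring
    rw [this] at hrd
    exact (dvd_neg).mp hrd
  have hr0 : r ≠ 0 := by
    intro h0
    rw [h0] at hrd'
    apply he
    simpa using hrd'
  have h1 : (range p).filter (fun c : ℕ => c ≠ 0 ∧ ¬ (p : ℤ) ∣ e + m * c) ⊆
      ((range p).erase 0).erase r := by
    intro c hc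
    rw [mem_filter] at hc
    refine mem_erase.mpr ⟨?_, mem_erase.mpr ⟨hc.2.1, hc.1⟩⟩
    rintro rfl
    exact hc.2.2 hrd'
  have h2 := card_le_card h1
  rw [card_erase_of_mem (mem_erase.mpr ⟨hr0, hr⟩), card_erase_of_mem (mem_range.mpr hp.pos),
    card_range] at h2
  have h3 : ((nu e m p : ℕ) : ℝ) ≤ ((p - 1 - 1 : ℕ) : ℝ) := Nat.cast_le.mpr h2
  have h4 := hp.two_le
  rw [Nat.cast_sub (by omega), Nat.cast_sub (by omega), Nat.cast_one] at h3
  linarith

theorem tot_prod (S : Finset ℕ) : (∀ p ∈ S, p.Prime) →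
    (Nat.totient (∏ p ∈ S, p) : ℝ) = ∏ p ∈ S, ((p : ℝ) - 1) := by
  induction S using Finset.induction_on with
  | empty => intro _; simp
  | insert p S hpS ih =>
    intro h
    have hp : p.Prime := h p (mem_insert_self _ _)
    have hS : ∀ q ∈ S, q.Prime := fun q hq => h q (mem_insert_of_mem hq)
    rw [prod_insert hpS, prod_insert hpS, Nat.totient_mul (cop_prod S p hp hS hpS).symm, Nat.cast_mul,
      ih hS, Nat.totient_prime hp, Nat.cast_sub hp.one_lt.le, Nat.cast_one]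

theorem class_count (S : Finset ℕ) (hS : ∀ p ∈ S, p.Prime) (e : ℤ) (m : ℕ) :
    (((range (∏ p ∈ S, p)).filter (fun c => ∀ p ∈ S, c % p ≠ 0 ∧
      ¬ (p : ℤ) ∣ e + m * ((c % p : ℕ) : ℤ))).card : ℝ) = ∏ p ∈ S, (nu e m p : ℝ) := by
  have h1 := crt_sum S hS (fun p r => if r ≠ 0 ∧ ¬ (p : ℤ) ∣ e + m * ((r : ℕ) : ℤ) then (1 : ℝ) else 0)
  have h2 : ∀ s : ℕ, (∏ p ∈ S, if s % p ≠ 0 ∧ ¬ (p : ℤ) ∣ e + m * ((s % p : ℕ) : ℤ) then (1 : ℝ) else 0) =
      if ∀ p ∈ S, s % p ≠ 0 ∧ ¬ (p : ℤ) ∣ e + m * ((s % p : ℕ) : ℤ) then (1 : ℝ) else 0 := fun s =>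
    (ind_prod S (fun p => s % p ≠ 0 ∧ ¬ (p : ℤ) ∣ e + m * ((s % p : ℕ) : ℤ))).symm
  rw [sum_congr rfl fun s _ => h2 s] at h1
  rw [card_filter, Nat.cast_sum]
  simp only [Nat.cast_ite, Nat.cast_one, Nat.cast_zero]
  rw [h1]
  apply prod_congr rfl
  intro p _
  unfold nu
  rw [card_filter, Nat.cast_sum]
  simp only [Nat.cast_ite, Nat.cast_one, Nat.cast_zero]

theorem per_m (y : ℝ) (hy : 1 < y) (w x m : ℕ) (e : ℤ)
    (hQ : ((∏ p ∈ QQ w, p : ℕ) : ℝ) ≤ y ^ (1 / 4 : ℝ)) (hwy : (w : ℝ) ≤ y)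
    (hy2 : 2 ≤ y ^ (3 / 4 : ℝ)) :
    (((Icc 1 x).filter (fun p : ℕ => p.Prime ∧ y < (p : ℝ) ∧
      ∀ q ∈ QQ w, ¬ (q : ℤ) ∣ e + m * p)).card : ℝ) ≤
      88 * x / Real.log y * ∏ p ∈ QQ w, gl e m p := by
  have hQp : ∀ p ∈ QQ w, p.Prime := fun p hp => (mem_QQ.mp hp).2.2
  have hy0 : 0 < y := by linarith
  have hly : 0 < Real.log y := Real.log_pos hy
  have hgl0 : 0 ≤ ∏ p ∈ QQ w, gl e m p := by
    apply prod_nonneg
    intro p hp
    have h3 : (3 : ℝ) ≤ p := by exact_mod_cast (mem_QQ.mp hp).1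
    unfold gl
    exact div_nonneg (Nat.cast_nonneg _) (by linarith)
  rcases lt_or_ge (x : ℝ) y with hxy | hxy
  · have h1 : (Icc 1 x).filter (fun p : ℕ => p.Prime ∧ y < (p : ℝ) ∧
        ∀ q ∈ QQ w, ¬ (q : ℤ) ∣ e + m * p) = ∅ := by
      rw [filter_eq_empty_iff]
      intro p hp h
      have h2 : (p : ℝ) ≤ x := by exact_mod_cast (mem_Icc.mp hp).2
      linarith [h.2.1]
    rw [h1, card_empty, Nat.cast_zero]
    positivity
  set Q : ℕ := ∏ p ∈ QQ w, p with hQd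
  have hQ0 : 0 < Q := prod_pos fun p hp => (hQp p hp).pos
  have hQR : (0 : ℝ) < Q := by exact_mod_cast hQ0
  have hφ : (0 : ℝ) < Nat.totient Q := by exact_mod_cast Nat.totient_pos.mpr hQ0
  set C : Finset ℕ := (range Q).filter (fun c => ∀ p ∈ QQ w, c % p ≠ 0 ∧
      ¬ (p : ℤ) ∣ e + m * ((c % p : ℕ) : ℤ)) with hC
  set M : ℕ := x / Q + 1 with hM
  have hx0 : (0 : ℝ) < x := by linarith
  have hxQ : y ^ (3 / 4 : ℝ) ≤ (x : ℝ) / Q := by
    rw [le_div_iff₀ hQR]
    calc y ^ (3 / 4 : ℝ) * Q ≤ y ^ (3 / 4 : ℝ) * y ^ (1 / 4 : ℝ) :=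
          mul_le_mul_of_nonneg_left hQ (Real.rpow_nonneg hy0.le _)
      _ = y := by rw [← Real.rpow_add hy0]; norm_num
      _ ≤ x := hxy
  have hM1 : (x : ℝ) / Q ≤ M := by
    rw [div_le_iff₀ hQR, hM]
    have h := Nat.lt_mul_div_succ x hQ0
    have h' : (x : ℝ) < ((Q * (x / Q + 1) : ℕ) : ℝ) := by exact_mod_cast h
    rw [Nat.cast_mul] at h'
    rw [mul_comm]
    exact h'.le
  have hM2 : (M : ℝ) ≤ 2 * ((x : ℝ) / Q) := by
    rw [hM]
    push_cast
    have : ((x / Q : ℕ) : ℝ) ≤ (x : ℝ) / Q := Nat.cast_div_le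
    linarith
  have hM2' : 2 ≤ M := by
    have : (2 : ℝ) ≤ M := by linarith
    exact_mod_cast this
  have hlogM : Real.log y / 2 ≤ Real.log M := by
    have h3 : Real.log (y ^ (3 / 4 : ℝ)) ≤ Real.log M :=
      Real.log_le_log (Real.rpow_pos_of_pos hy0 _) (hxQ.trans hM1)
    rw [Real.log_rpow hy0] at h3
    linarith
  have hclass : ∀ c : ℕ, (((Icc 1 x).filter (fun p : ℕ => p.Prime ∧ p % Q = c)).card : ℝ) ≤
      88 * x / (Nat.totient Q * Real.log y) := by
    intro c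
    have h3 : ((Icc 1 x).filter (fun p : ℕ => p.Prime ∧ p % Q = c)).card ≤
        ((range M).filter (fun k => (c + k * Q).Prime)).card := by
      apply card_le_card_of_injOn (fun a => a / Q)
      · intro a ha
        rw [mem_coe, mem_filter, mem_Icc] at ha
        rw [mem_coe, mem_filter, mem_range, hM]
        refine ⟨Nat.lt_succ_of_le (Nat.div_le_div_right ha.1.2), ?_⟩
        have h5 := Nat.div_add_mod a Q
        rw [ha.2.2] at h5
        have h6 : c + a / Q * Q = a := by rw [mul_comm]; omega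
        simp only
        rw [h6]
        exact ha.2.1
      · intro a ha b hb hab
        have h1 := (mem_filter.mp (mem_coe.mp ha)).2.2
        have h2 := (mem_filter.mp (mem_coe.mp hb)).2.2
        simp only at hab
        rw [← Nat.div_add_mod a Q, ← Nat.div_add_mod b Q, h1, h2, hab]
    have h4 := Pool.Agent.H692R2.USS.t1_brun_titchmarsh c Q M hM2' hQ0
    refine ((Nat.cast_le.mpr h3).trans h4).trans ?_
    have h6 : 22 * ((Q : ℝ) / Nat.totient Q) * M / Real.log M ≤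
        22 * ((Q : ℝ) / Nat.totient Q) * (2 * (x / Q)) / (Real.log y / 2) := by
      apply div_le_div₀ (by positivity) _ (by positivity) hlogM
      exact mul_le_mul_of_nonneg_left hM2 (by positivity)
    refine h6.trans (le_of_eq ?_)
    field_simp
    ring
  have hsub : (Icc 1 x).filter (fun p : ℕ => p.Prime ∧ y < (p : ℝ) ∧
      ∀ q ∈ QQ w, ¬ (q : ℤ) ∣ e + m * p) ⊆
      C.biUnion (fun c => (Icc 1 x).filter (fun p : ℕ => p.Prime ∧ p % Q = c)) := by
    intro p hp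
    rw [mem_filter] at hp
    obtain ⟨hp1, hpp, hyp, hp2⟩ := hp
    rw [mem_biUnion]
    refine ⟨p % Q, ?_, mem_filter.mpr ⟨hp1, hpp, rfl⟩⟩
    rw [hC, mem_filter, mem_range]
    refine ⟨Nat.mod_lt _ hQ0, ?_⟩
    intro q hq
    have hqQ : q ∣ Q := dvd_prod_of_mem (fun p => p) hq
    rw [Nat.mod_mod_of_dvd p hqQ]
    constructor
    · intro h0
      have h1 := (Nat.prime_dvd_prime_iff_eq (hQp q hq) hpp).mp (Nat.dvd_of_mod_eq_zero h0)
      have h2 : (q : ℝ) ≤ w := by exact_mod_cast (mem_QQ.mp hq).2.1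
      rw [h1] at h2
      linarith
    · intro hd
      apply hp2 q hq
      have h1 := mod_dvd p q
      have h2 : e + m * (p : ℤ) = (e + m * ((p % q : ℕ) : ℤ)) + m * ((p : ℤ) - ((p % q : ℕ) : ℤ)) := by
        ring
      rw [h2]
      exact dvd_add hd (Dvd.dvd.mul_left h1 _)
  have h1 := (Nat.cast_le (α := ℝ)).mpr ((card_le_card hsub).trans card_biUnion_le)
  refine h1.trans ?_
  push_cast
  refine (sum_le_sum fun c _ => hclass c).trans (le_of_eq ?_)
  rw [sum_const, nsmul_eq_mul, class_count (QQ w) hQp e m, tot_prod (QQ w) hQp]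
  unfold gl
  rw [prod_div_distrib]
  have hne : ∏ p ∈ QQ w, ((p : ℝ) - 1) ≠ 0 := by
    rw [← tot_prod (QQ w) hQp]
    exact hφ.ne'
  field_simp

theorem ev_sieve : ∃ y₀ : ℝ, ∀ y : ℝ, y₀ ≤ y → 1 < y ∧ 2 ≤ y ^ (3 / 4 : ℝ) ∧
    40 ≤ Real.log y ∧ Real.log y / 8 ≤ y ∧ 8 ≤ Real.log (Real.log y) := by
  have h1 : ∀ᶠ y : ℝ in atTop, 2 ≤ y ^ (3 / 4 : ℝ) :=
    (tendsto_rpow_atTop (by norm_num)).eventually_ge_atTop _
  have h2 : ∀ᶠ y : ℝ in atTop, 8 ≤ Real.log (Real.log y) :=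
    (Real.tendsto_log_atTop.comp Real.tendsto_log_atTop).eventually_ge_atTop _
  obtain ⟨y₀, h⟩ := eventually_atTop.1 ((eventually_gt_atTop (1 : ℝ)).and (h1.and
    ((Real.tendsto_log_atTop.eventually_ge_atTop 40).and h2)))
  refine ⟨y₀, fun y hy => ?_⟩
  obtain ⟨a1, a2, a3, a4⟩ := h y hy
  refine ⟨a1, a2, a3, ?_, a4⟩
  have := Real.log_le_sub_one_of_pos (show 0 < y by linarith)
  linarith

/-- **sieve bound** -/
theorem rough_prime : ∃ C : ℝ, 0 < C ∧ ∃ y₀ : ℝ, ∀ y : ℝ, y₀ ≤ y → ∀ L : ℕ,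
    (L : ℝ) ≤ y * (Real.log y) ^ 2 → ∀ e : ℤ,
    (((Icc 1 L).filter (fun n : ℕ => (∃ p : ℕ, p.Prime ∧ y < (p : ℝ) ∧ p ∣ n) ∧
      ∀ q : ℕ, q.Prime → (q : ℝ) ≤ (Real.log y) ^ 8 → ¬ (q : ℤ) ∣ e + n)).card : ℝ) ≤
      C * L / Real.log y := by
  obtain ⟨c₁, c₂, hc₁, hc₁₂, hV⟩ := cz_bounds
  obtain ⟨y₀, hev⟩ := ev_sieve
  have hc₂ : 0 < c₂ := hc₁.trans_le hc₁₂
  refine ⟨88 * (2 * Real.exp 2 * (c₂ / c₁ * 4)), by positivity, y₀, ?_⟩
  intro y hy L hLy e
  obtain ⟨a1, a2, a3, a4, a5⟩ := hev y hy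
  have hy0 : 0 < y := by linarith
  set t : ℝ := Real.log y with ht
  have ht0 : 0 < t := by linarith
  set w : ℕ := ⌊t / 8⌋₊ with hw
  set M : ℕ := ⌊t ^ 2⌋₊ with hM
  have hwle : (w : ℝ) ≤ t / 8 := Nat.floor_le (by positivity)
  have hwlt : t / 8 < w + 1 := Nat.lt_floor_add_one _
  have hw3 : 3 ≤ w := by
    apply Nat.le_floor
    push_cast
    linarith
  have hwM : w ≤ M := by
    apply Nat.floor_le_floor
    nlinarith
  have hMle : (M : ℝ) ≤ t ^ 2 := Nat.floor_le (by positivity)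
  have hQ : ((∏ p ∈ QQ w, p : ℕ) : ℝ) ≤ y ^ (1 / 4 : ℝ) := by
    have h1 : ∏ p ∈ QQ w, p ≤ primorial w := by
      unfold primorial
      apply prod_le_prod_of_subset_of_one_le' 
      · intro p hp
        rw [mem_filter, mem_range]
        have := mem_QQ.mp hp
        exact ⟨by omega, this.2.2⟩
      · intro p hp _
        exact ((mem_filter.mp hp).2).one_lt.le
    have h2 : ((∏ p ∈ QQ w, p : ℕ) : ℝ) ≤ ((4 ^ w : ℕ) : ℝ) :=
      Nat.cast_le.mpr (h1.trans (primorial_le_four_pow w))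
    refine h2.trans ?_
    push_cast
    have h3 : (4 : ℝ) ^ w = Real.exp (Real.log 4 * w) := by
      rw [← Real.rpow_natCast, Real.rpow_def_of_pos (by norm_num)]
    rw [h3, Real.rpow_def_of_pos hy0]
    apply Real.exp_le_exp.mpr
    have h4 : Real.log 4 ≤ 2 := by
      have : Real.log 4 = 2 * Real.log 2 := by
        rw [show (4 : ℝ) = 2 ^ 2 by norm_num, Real.log_pow]; norm_num
      have := Real.log_two_lt_d9
      linarith
    have h5 : Real.log 4 * w ≤ 2 * (t / 8) :=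
      mul_le_mul h4 hwle (Nat.cast_nonneg _) (by norm_num)
    rw [← ht]
    linarith
  have hwy : (w : ℝ) ≤ y := hwle.trans a4
  -- covering by products
  have hsub : (Icc 1 L).filter (fun n : ℕ => (∃ p : ℕ, p.Prime ∧ y < (p : ℝ) ∧ p ∣ n) ∧
      ∀ q : ℕ, q.Prime → (q : ℝ) ≤ t ^ 8 → ¬ (q : ℤ) ∣ e + n) ⊆
      (Icc 1 M).biUnion (fun m => ((Icc 1 (L / m)).filter (fun p : ℕ => p.Prime ∧ y < (p : ℝ) ∧
        ∀ q ∈ QQ w, ¬ (q : ℤ) ∣ e + m * p)).image (fun p => m * p)) := by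
    intro n hn
    rw [mem_filter, mem_Icc] at hn
    obtain ⟨⟨hn1, hnL⟩, ⟨p, hp, hyp, m, hm⟩, hn2⟩ := hn
    have hm1 : 1 ≤ m := by
      rcases Nat.eq_zero_or_pos m with h | h
      · rw [h, mul_zero] at hm
        omega
      · exact h
    have hmR : (1 : ℝ) ≤ m := by exact_mod_cast hm1
    rw [mem_biUnion]
    refine ⟨m, ?_, ?_⟩
    · rw [mem_Icc]
      refine ⟨hm1, ?_⟩
      apply Nat.le_floor
      have h1 : (p : ℝ) * m ≤ L := by
        have : p * m ≤ L := by rw [← hm]; exact hnL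
        exact_mod_cast this
      have h2 : y * m ≤ y * t ^ 2 := by
        calc y * m ≤ p * m := mul_le_mul_of_nonneg_right hyp.le (by linarith)
          _ ≤ L := h1
          _ ≤ _ := hLy
      exact le_of_mul_le_mul_left h2 hy0
    · rw [mem_image]
      refine ⟨p, ?_, by rw [hm, mul_comm]⟩
      rw [mem_filter, mem_Icc]
      refine ⟨⟨hp.pos, ?_⟩, hp, hyp, ?_⟩
      · rw [Nat.le_div_iff_mul_le (by omega), ← hm]
        exact hnL
      · intro q hq hd
        have h3 := mem_QQ.mp hq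
        apply hn2 q h3.2.2
        · have h4 : (q : ℝ) ≤ w := by exact_mod_cast h3.2.1
          have h5 : t ≤ t ^ 8 := by
            calc t = t ^ 1 := (pow_one t).symm
              _ ≤ t ^ 8 := pow_le_pow_right₀ (by linarith) (by norm_num)
          linarith
        · rw [hm]
          push_cast
          rw [mul_comm (p : ℤ) m]
          exact hd
  have h1 := (Nat.cast_le (α := ℝ)).mpr ((card_le_card hsub).trans card_biUnion_le)
  refine h1.trans ?_
  push_cast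
  have h2 : ∀ m ∈ Icc 1 M, ((((Icc 1 (L / m)).filter (fun p : ℕ => p.Prime ∧ y < (p : ℝ) ∧
        ∀ q ∈ QQ w, ¬ (q : ℤ) ∣ e + m * p)).image (fun p => m * p)).card : ℝ) ≤
      88 * L / t * (1 / (m : ℝ) * ∏ p ∈ QQ w, gl e m p) := by
    intro m hm
    have hm1 := (mem_Icc.mp hm).1
    have hmR : (0 : ℝ) < m := by exact_mod_cast hm1
    have e1 := per_m y a1 w (L / m) m e hQ hwy a2
    have e2 : ((((Icc 1 (L / m)).filter (fun p : ℕ => p.Prime ∧ y < (p : ℝ) ∧
        ∀ q ∈ QQ w, ¬ (q : ℤ) ∣ e + m * p)).image (fun p => m * p)).card : ℝ) ≤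
        (((Icc 1 (L / m)).filter (fun p : ℕ => p.Prime ∧ y < (p : ℝ) ∧
        ∀ q ∈ QQ w, ¬ (q : ℤ) ∣ e + m * p)).card : ℝ) := Nat.cast_le.mpr card_image_le
    have hgl0 : 0 ≤ ∏ p ∈ QQ w, gl e m p := by
      apply prod_nonneg
      intro p hp
      have h3 : (3 : ℝ) ≤ p := by exact_mod_cast (mem_QQ.mp hp).1
      unfold gl
      exact div_nonneg (Nat.cast_nonneg _) (by linarith)
    have e3 : ((L / m : ℕ) : ℝ) ≤ (L : ℝ) / m := Nat.cast_div_le
    calc _ ≤ 88 * ((L / m : ℕ) : ℝ) / t * ∏ p ∈ QQ w, gl e m p := e2.trans e1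
      _ ≤ 88 * ((L : ℝ) / m) / t * ∏ p ∈ QQ w, gl e m p := by
          apply mul_le_mul_of_nonneg_right _ hgl0
          apply div_le_div_of_nonneg_right _ ht0.le
          linarith
      _ = _ := by ring
  refine (sum_le_sum h2).trans ?_
  rw [← mul_sum]
  have hpge : ∀ p ∈ QQ w, (3 : ℝ) ≤ p := fun p hp => by exact_mod_cast (mem_QQ.mp hp).1
  have h3 := weight_sum w M hw3 hwM e (fun n p => if 3 ≤ p then gl e n p else 0)
    (by
      intro n p
      split_ifs with h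
      · have : (3 : ℝ) ≤ p := by exact_mod_cast h
        unfold gl
        exact div_nonneg (Nat.cast_nonneg _) (by linarith)
      · exact le_rfl)
    (by
      intro n p hp
      rw [if_pos (mem_QQ.mp hp).1]
      have := hpge p hp
      unfold gl
      rw [div_le_one (by linarith)]
      exact nu_le e n p (by have := (mem_QQ.mp hp).1; omega))
    (by
      intro n p hp he hn
      rw [if_pos (mem_QQ.mp hp).1]
      unfold gl
      rw [nu_zero e n p he hn, Nat.cast_zero, zero_div])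
    (by
      intro n p hp he hn
      rw [if_pos (mem_QQ.mp hp).1]
      have := hpge p hp
      unfold gl
      apply div_le_div_of_nonneg_right _ (by linarith)
      exact nu_two e n p (mem_QQ.mp hp).2.2 he hn)
  have h4 : ∑ m ∈ Icc 1 M, 1 / (m : ℝ) * ∏ p ∈ QQ w, gl e m p =
      ∑ n ∈ Icc 1 M, 1 / (n : ℝ) * ∏ p ∈ QQ w, (if 3 ≤ p then gl e n p else 0) := by
    apply sum_congr rfl
    intro n _
    congr 1
    apply prod_congr rfl
    intro p hp
    rw [if_pos (mem_QQ.mp hp).1]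
  rw [h4]
  have h5 : V w / V M ≤ c₂ / c₁ * 4 := by
    have f1 := (hV w (by omega)).2
    have f2 := (hV M (by omega)).1
    have hVw := V_pos w
    have hVM := V_pos M
    have hwR : (0 : ℝ) < w := by exact_mod_cast (by omega : 0 < w)
    have hMR : (0 : ℝ) < M := by exact_mod_cast (by omega : 0 < M)
    have g1 : Real.log t / 2 ≤ Real.log w := by
      have k1 : t / 16 ≤ w := by linarith
      have k2 := Real.log_le_log (by positivity) k1
      rw [Real.log_div ht0.ne' (by norm_num)] at k2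
      have k3 : Real.log 16 ≤ 4 := by
        have : Real.log 16 = 4 * Real.log 2 := by
          rw [show (16 : ℝ) = 2 ^ 4 by norm_num, Real.log_pow]; norm_num
        have := Real.log_two_lt_d9
        linarith
      linarith
    have g2 : Real.log M ≤ 2 * Real.log t := by
      have k1 := Real.log_le_log hMR hMle
      rw [Real.log_pow] at k1
      exact_mod_cast k1
    have hlt : 0 < Real.log t := by linarith
    have hlM : 0 < Real.log M := Real.log_pos (by exact_mod_cast (by omega : 1 < M))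
    rw [div_le_iff₀ hVM]
    have f3 : V w * (Real.log t / 2) ≤ c₂ := (mul_le_mul_of_nonneg_left g1 hVw.le).trans f1
    have f4 : c₁ ≤ V M * (2 * Real.log t) := f2.trans (mul_le_mul_of_nonneg_left g2 hVM.le)
    have f5 : V w ≤ 2 * c₂ / Real.log t := by
      rw [le_div_iff₀ hlt]
      linarith
    have f6 : 1 / Real.log t ≤ 2 * V M / c₁ := by
      rw [div_le_div_iff₀ hlt hc₁]
      linarith
    calc V w ≤ 2 * c₂ / Real.log t := f5
      _ = 2 * c₂ * (1 / Real.log t) := by ring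
      _ ≤ 2 * c₂ * (2 * V M / c₁) := mul_le_mul_of_nonneg_left f6 (by positivity)
      _ = c₂ / c₁ * 4 * V M := by ring
  calc 88 * (L : ℝ) / t * ∑ n ∈ Icc 1 M, 1 / (n : ℝ) * ∏ p ∈ QQ w, (if 3 ≤ p then gl e n p else 0)
      ≤ 88 * (L : ℝ) / t * (2 * Real.exp 2 * (c₂ / c₁ * 4)) := by
        apply mul_le_mul_of_nonneg_left _ (by positivity)
        exact h3.trans (mul_le_mul_of_nonneg_left h5 (by positivity))
    _ = _ := by ring

end Pool.Agent.U642.DT
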